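import Pool.Agent.MP_5f0aae_co.Un.Orb

/-! Very sparse graphs, the double count of orbits of pairs, and graphs with few orbits. -/

namespace Pool.Agent.MP_5f0aae_co.Un

open Finset MulAction Equiv
open scoped Classical Pointwise

variable {V : Type} {A : Finset (Sym2 V)}

lemma dg_one {u : V} (h : dg A u = 1) {e e' : Sym2 V} (he : e ∈ A) (he' : e' ∈ A) (hu : u ∈ e)
    (hu' : u ∈ e') : e = e' :=
  card_le_one.1 h.le _ (mem_filter.2 ⟨he, hu⟩) _ (mem_filter.2 ⟨he', hu'⟩)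

lemma twin {a c m : V} (ha : dg A a = 1) (hc : dg A c = 1) (h1 : s(a, m) ∈ A) (h2 : s(c, m) ∈ A)
    (k1 : a ≠ m) (k2 : c ≠ m) : swap a c • A = A := by
  refine smul_eq_of_sub fun e he => ?_
  by_cases i1 : a ∈ e
  · rw [dg_one ha he h1 i1 (by simp), smul_mk, swap_apply_left,
      swap_apply_of_ne_of_ne k1.symm k2.symm]
    exact h2
  by_cases i2 : c ∈ e
  · rw [dg_one hc he h2 i2 (by simp), smul_mk, swap_apply_right,
      swap_apply_of_ne_of_ne k1.symm k2.symm]
    exact h1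
  rwa [smul_fix fun v hv => swap_apply_of_ne_of_ne (ne_of_mem_of_not_mem hv i1)
      (ne_of_mem_of_not_mem hv i2)]

lemma flip {a b : V} (ha : dg A a = 1) (hb : dg A b = 1) (h : s(a, b) ∈ A) : swap a b • A = A := by
  refine smul_eq_of_sub fun e he => ?_
  have k : swap a b • s(a, b) ∈ A := by
    rw [smul_mk, swap_apply_left, swap_apply_right, Sym2.eq_swap]; exact h
  by_cases i1 : a ∈ e
  · rwa [dg_one ha he h i1 (by simp)]
  by_cases i2 : b ∈ e
  · rwa [dg_one hb he h i2 (by simp)]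
  rwa [smul_fix fun v hv => swap_apply_of_ne_of_ne (ne_of_mem_of_not_mem hv i1)
      (ne_of_mem_of_not_mem hv i2)]

lemma iso_edges {a b c d : V} (ha : dg A a = 1) (hb : dg A b = 1) (hc : dg A c = 1)
    (hd : dg A d = 1) (h1 : s(a, b) ∈ A) (h2 : s(c, d) ∈ A) (hab : a ≠ b) (hcd : c ≠ d) :
    ∃ σ : Perm V, σ • A = A ∧ σ a = c ∧ σ b = d := by
  by_cases h : s(a, b) = s(c, d)
  · rcases Sym2.eq_iff.1 h with ⟨rfl, rfl⟩ | ⟨rfl, rfl⟩
    · exact ⟨1, one_smul _ _, rfl, rfl⟩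
    · exact ⟨swap a b, flip ha hb h1, swap_apply_left _ _, swap_apply_right _ _⟩
  have ac : a ≠ c := fun k => h (dg_one ha h1 h2 (by simp) (by simp [k]))
  have ad : a ≠ d := fun k => h (dg_one ha h1 h2 (by simp) (by simp [k]))
  have bc : b ≠ c := fun k => h (dg_one hb h1 h2 (by simp) (by simp [k]))
  have bd : b ≠ d := fun k => h (dg_one hb h1 h2 (by simp) (by simp [k]))
  have e1 : (swap a c * swap b d) a = c := by
    rw [Perm.mul_apply, swap_apply_of_ne_of_ne hab ad, swap_apply_left]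
  have e2 : (swap a c * swap b d) b = d := by
    rw [Perm.mul_apply, swap_apply_left, swap_apply_of_ne_of_ne ad.symm hcd.symm]
  have e3 : (swap a c * swap b d) c = a := by
    rw [Perm.mul_apply, swap_apply_of_ne_of_ne bc.symm hcd, swap_apply_right]
  have e4 : (swap a c * swap b d) d = b := by
    rw [Perm.mul_apply, swap_apply_right, swap_apply_of_ne_of_ne hab.symm bc]
  refine ⟨swap a c * swap b d, smul_eq_of_sub fun e he => ?_, e1, e2⟩
  by_cases i1 : a ∈ e
  · rwa [dg_one ha he h1 i1 (by simp), smul_mk, e1, e2]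
  by_cases i2 : b ∈ e
  · rwa [dg_one hb he h1 i2 (by simp), smul_mk, e1, e2]
  by_cases i3 : c ∈ e
  · rwa [dg_one hc he h2 i3 (by simp), smul_mk, e3, e4]
  by_cases i4 : d ∈ e
  · rwa [dg_one hd he h2 i4 (by simp), smul_mk, e3, e4]
  rwa [smul_fix fun v hv => by
    rw [Perm.mul_apply, swap_apply_of_ne_of_ne (ne_of_mem_of_not_mem hv i2)
      (ne_of_mem_of_not_mem hv i4),
      swap_apply_of_ne_of_ne (ne_of_mem_of_not_mem hv i1)
      (ne_of_mem_of_not_mem hv i3)]]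

lemma card_dg (c : ℕ) (S : Finset V) (h : ∀ v ∈ S, c ≤ dg A v) : S.card * c ≤ A.card * 2 := by
  refine (card_nsmul_le_sum _ _ _ h).trans ?_
  simp only [dg, card_filter]
  rw [sum_comm]
  refine sum_le_card_nsmul _ _ _ fun e _ => ?_
  rw [← card_filter]
  induction e using Sym2.ind with
  | _ a b =>
    exact (card_le_card (t := {a, b}) fun v hv => by simpa using (mem_filter.1 hv).2).trans
      card_le_two

lemma erase_equi (σ : Perm V) (x : Finset (Sym2 V) × Sym2 V) :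
    (σ • x).1.erase (σ • x).2 = σ • x.1.erase x.2 := (smul_erase σ x.1 x.2).symm

variable [Fintype V] {d q : ℕ}

lemma ins_Fr (hA : A ∈ Fr V d q) {a b : V} (hab : a ≠ b) (h : s(a, b) ∉ A) (ha : dg A a + 1 ≠ d)
    (hb : dg A b + 1 ≠ d) : insert s(a, b) A ∈ Fr V d (q + 1) := by
  obtain ⟨⟨h1, h2⟩, h3⟩ := mem_Fr.1 hA
  refine mem_Fr.2 ⟨⟨insert_subset (mk_mem_prs.2 ⟨mem_univ _, mem_univ _, hab⟩) h1, ?_⟩, fun v => ?_⟩
  · rw [card_insert_of_notMem h, h2]
  · rw [dg_insert h]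
    split_ifs with k
    · rcases Sym2.mem_iff.1 k with rfl | rfl
      exacts [ha, hb]
    · exact h3 v

theorem rangeA (hd : 2 ≤ d) (hp : 2 * (q + 1) ≤ Fintype.card V) :
    uu V d q ≤ uu V d (q + 1) ∧ (1 ≤ q → q + 1 ≠ d → uu V d q < uu V d (q + 1)) := by
  set T := (Fr V d (q + 1)).filter fun A => ∃ e ∈ A, ∀ v ∈ e, dg A v = 1 with hT
  set P := (Fr V d (q + 1) ×ˢ (univ : Finset (Sym2 V))).filter
    fun x => x.2 ∈ x.1 ∧ ∀ v ∈ x.2, dg x.1 v = 1 with hP
  have mP : ∀ x, x ∈ P ↔ x.1 ∈ Fr V d (q + 1) ∧ x.2 ∈ x.1 ∧ ∀ v ∈ x.2, dg x.1 v = 1 := fun x => by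
    simp [hP]
  have iP : Inv (Perm V) P := fun σ x hx => by
    obtain ⟨h1, h2, h3⟩ := (mP x).1 hx
    refine (mP _).2 ⟨inv_Fr _ _ σ _ h1, smul_mem_smul_finset h2, fun v hv => ?_⟩
    obtain ⟨v, rfl⟩ := σ.surjective v
    exact (dg_smul σ x.1 v).trans (h3 v ((smul_mem σ).1 hv))
  have h1 : uu V d q ≤ nb (Perm V) P := by
    refine nb_surj (fun x => x.1.erase x.2) erase_equi fun A hA => ?_
    have k1 := card_dg (A := A) 1 (univ.filter fun v => ¬ dg A v = 0) fun v hv =>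
      Nat.pos_of_ne_zero (mem_filter.1 hv).2
    have k2 := card_filter_add_card_filter_not (s := (univ : Finset V)) fun v => dg A v = 0
    rw [(mem_Fr.1 hA).1.2] at k1
    rw [card_univ] at k2
    obtain ⟨a, ha, b, hb, hab⟩ := one_lt_card.1
      (by omega : 1 < (univ.filter fun v => dg A v = 0).card)
    have ha := (mem_filter.1 ha).2
    have hb := (mem_filter.1 hb).2
    have h : s(a, b) ∉ A := fun k => dg_zero.1 ha _ k (by simp)
    refine ⟨(insert s(a, b) A, s(a, b)), (mP _).2 ⟨ins_Fr hA hab h (by omega) (by omega),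
      mem_insert_self _ _, fun v hv => ?_⟩, erase_insert h⟩
    show dg (insert s(a, b) A) v = 1
    rw [dg_insert h, if_pos hv]
    rcases Sym2.mem_iff.1 hv with rfl | rfl <;> omega
  have h2 : nb (Perm V) P ≤ nb (Perm V) T * 1 := by
    refine nb_le_mul Prod.fst (fun _ _ => rfl) iP (fun x hx => ?_) 1 fun x _ =>
      nb_le_one ?_
    · exact mem_filter.2 ⟨((mP x).1 hx).1, x.2, ((mP x).1 hx).2⟩
    · rintro ⟨B, e⟩ h1 ⟨B', e'⟩ h2
      obtain ⟨h1, k1⟩ := mem_filter.1 h1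
      obtain ⟨h2, k2⟩ := mem_filter.1 h2
      obtain rfl : B = B' := k1.trans k2.symm
      obtain ⟨h0, h1, h1'⟩ := (mP _).1 h1
      obtain ⟨-, h2, h2'⟩ := (mP _).1 h2
      induction e using Sym2.ind with
      | _ a b =>
        induction e' using Sym2.ind with
        | _ c d =>
          obtain ⟨σ, s1, s2, s3⟩ := iso_edges (h2' c (by simp)) (h2' d (by simp))
            (h1' a (by simp)) (h1' b (by simp)) h2 h1
            (mk_mem_prs.1 ((mem_Fr.1 h0).1.1 h2)).2.2 (mk_mem_prs.1 ((mem_Fr.1 h0).1.1 h1)).2.2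
          exact ⟨σ, Prod.ext s1 (by rw [← s2, ← s3]; rfl)⟩
  rw [mul_one] at h2
  refine ⟨h1.trans (h2.trans (nb_mono (filter_subset _ _))), fun q1 qd => ?_⟩
  refine (h1.trans h2).trans_lt (card_lt_card ⟨image_subset_image (filter_subset _ _), ?_⟩)
  obtain ⟨c⟩ : Nonempty V := Fintype.card_pos_iff.1 (by omega)
  obtain ⟨S, s1, s2⟩ := exists_subset_card_eq (s := univ.erase c) (n := q + 1)
    (by rw [card_erase_of_mem (mem_univ _), card_univ]; omega)
  set B := S.image fun a => s(c, a) with hB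
  have b1 : B.card = q + 1 := by
    rw [hB, card_image_of_injective _ fun a b k => Sym2.congr_right.1 k, s2]
  have b2 : ∀ e ∈ B, c ∈ e := fun e he => by
    obtain ⟨a, -, rfl⟩ := mem_image.1 he
    simp
  have b3 : dg B c = q + 1 := by rw [dg, filter_true_of_mem b2, b1]
  have b4 : B ∈ Fr V d (q + 1) := by
    refine mem_Fr.2 ⟨⟨fun e he => ?_, b1⟩, fun v => ?_⟩
    · obtain ⟨a, ha, rfl⟩ := mem_image.1 he
      exact mk_mem_prs.2 ⟨mem_univ _, mem_univ _, (mem_erase.1 (s1 ha)).1.symm⟩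
    · by_cases hv : v = c
      · rw [hv, b3]; exact qd
      · have : dg B v ≤ 1 := card_le_one.2 fun e he e' he' =>
          Sym2.eq_of_ne_mem hv (mem_filter.1 he).2 (b2 _ (mem_filter.1 he).1) (mem_filter.1 he').2
            (b2 _ (mem_filter.1 he').1)
        omega
  intro k
  obtain ⟨B', hB', e⟩ := mem_image.1 (k (mem_image_of_mem _ b4))
  obtain ⟨σ, rfl⟩ := cl_eq.1 e
  obtain ⟨e, he, k⟩ := (mem_filter.1 hB').2
  obtain ⟨e', he', rfl⟩ := mem_smul_finset.1 he
  have := k (σ c) ((smul_mem σ).2 (b2 e' he'))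
  rw [dg_smul] at this
  omega

/-- The automorphism group. -/
noncomputable abbrev St (A : Finset (Sym2 V)) : Subgroup (Perm V) := stabilizer (Perm V) A

/-- The points that may receive a line. -/
noncomputable def good (d : ℕ) (A : Finset (Sym2 V)) : Finset V :=
  univ.filter fun v => dg A v + 1 ≠ d

theorem pairs (d q : ℕ) : ∑ ω ∈ (Fr V d q).image (cl (Perm V)),
    ((nb (St ω.out) (good d ω.out)).choose 2 - q) ≤ uu V d (q + 1) * (q + 1) := by
  set P := (Fr V d (q + 1) ×ˢ (univ : Finset (Sym2 V))).filter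
    fun x => x.2 ∈ x.1 ∧ x.1.erase x.2 ∈ Fr V d q with hP
  have mP : ∀ x, x ∈ P ↔ x.1 ∈ Fr V d (q + 1) ∧ x.2 ∈ x.1 ∧ x.1.erase x.2 ∈ Fr V d q := fun x => by
    simp [hP]
  have iP : Inv (Perm V) P := fun σ x hx => by
    obtain ⟨h1, h2, h3⟩ := (mP x).1 hx
    exact (mP _).2 ⟨inv_Fr _ _ σ _ h1, smul_mem_smul_finset h2,
      erase_equi σ x ▸ inv_Fr _ _ σ _ h3⟩
  refine le_trans ?_ (nb_le_mul Prod.fst (fun _ _ => rfl) iP (fun x hx => ((mP x).1 hx).1) _
    fun x hx => nb_le_card.trans ?_)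
  · rw [nb_fiber (fun x => x.1.erase x.2) erase_equi iP fun x hx => ((mP x).1 hx).2.2]
    refine sum_le_sum fun ω hω => ?_
    have hA := (inv_Fr d q).out hω
    set A := ω.out
    obtain ⟨R, r1, r2, r3, -⟩ := reps (Γ := St A) (good d A)
    refine le_trans ?_ (nb_mono (F := (prs R \ A).image fun e => (insert e A, e)) ?_)
    · rw [nb_eq_card (Γ := Perm V), card_image_of_injective (f := fun e => (insert e A, e)) _
        fun a b k => congrArg Prod.snd k, ← r2,
        ← card_prs, ← (mem_Fr.1 hA).1.2]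
      · exact le_card_sdiff _ _
      · intro x hx y hy σ e
        obtain ⟨e1, h1, rfl⟩ := mem_image.1 hx
        obtain ⟨e2, h2, rfl⟩ := mem_image.1 hy
        have k := erase_equi σ (insert e2 A, e2)
        rw [e, erase_insert (mem_sdiff.1 h1).2, erase_insert (mem_sdiff.1 h2).2] at k
        have k2 : σ • e2 = e1 := congrArg Prod.snd e
        have k3 : σ • e2 = e2 := smul_fix fun v hv =>
          r3 _ ((mem_prs.1 (mem_sdiff.1 h1).1).1 _ (k2 ▸ (smul_mem σ).2 hv)) _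
            ((mem_prs.1 (mem_sdiff.1 h2).1).1 _ hv) ⟨σ, k.symm⟩ rfl
        rw [← k2, k3]
    · intro x hx
      obtain ⟨e, he, rfl⟩ := mem_image.1 hx
      obtain ⟨h1, h2⟩ := mem_sdiff.1 he
      refine mem_filter.2 ⟨(mP _).2 ⟨?_, mem_insert_self _ _, (erase_insert h2).symm ▸ hA⟩,
        erase_insert h2⟩
      induction e using Sym2.ind with
      | _ a b =>
        obtain ⟨k1, k2, k3⟩ := mk_mem_prs.1 h1
        exact ins_Fr hA k3 h2 (mem_filter.1 (r1 k1)).2 (mem_filter.1 (r1 k2)).2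
  · rw [← (mem_Fr.1 ((mP x).1 hx).1).1.2]
    refine card_le_card_of_injOn Prod.snd (fun y hy => ?_) fun y hy z hz e => ?_
    · obtain ⟨h1, h2⟩ := mem_filter.1 (mem_coe.1 hy)
      exact mem_coe.2 (h2 ▸ ((mP y).1 h1).2.1)
    · exact Prod.ext ((mem_filter.1 (mem_coe.1 hy)).2.trans (mem_filter.1 (mem_coe.1 hz)).2.symm) e

lemma orb_top (d : ℕ) (A : Finset (Sym2 V)) : nb (St A) (univ : Finset V) ≤
    nb (St A) (good d A) + (univ.filter fun v => dg A v + 1 = d).card := by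
  refine (nb_mono (S := good d A ∪ univ.filter fun v => dg A v + 1 = d) fun v _ => ?_).trans
    (nb_union_le.trans (Nat.add_le_add_left nb_le_card _))
  by_cases h : dg A v + 1 = d <;> simp [good, h]

lemma orb_two (hA : A ⊆ prs univ) :
    nb (St A) (univ : Finset V) ≤ 2 * nb (St A) (good 2 A) + 1 := by
  set L1 := univ.filter fun v => dg A v = 1 ∧ ∃ m, s(v, m) ∈ A ∧ dg A m ≠ 1 with h1
  set L2 := univ.filter fun v => dg A v = 1 ∧ ∃ m, s(v, m) ∈ A ∧ dg A m = 1 with h2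
  have ne : ∀ {a b}, s(a, b) ∈ A → a ≠ b := fun h => (mk_mem_prs.1 (hA h)).2.2
  have k0 : nb (St A) (univ : Finset V) ≤ nb (St A) (good 2 A ∪ (L1 ∪ L2)) := by
    refine nb_mono fun v _ => ?_
    by_cases h : dg A v = 1
    · obtain ⟨e, he⟩ := card_pos.1 (h.ge : 0 < dg A v)
      obtain ⟨m, rfl⟩ := Sym2.mem_iff_exists.1 (mem_filter.1 he).2
      refine mem_union_right _ (mem_union.2 ?_)
      by_cases h' : dg A m = 1
      · exact Or.inr (mem_filter.2 ⟨mem_univ _, h, m, (mem_filter.1 he).1, h'⟩)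
      · exact Or.inl (mem_filter.2 ⟨mem_univ _, h, m, (mem_filter.1 he).1, h'⟩)
    · exact mem_union_left _ (mem_filter.2 ⟨mem_univ _, by omega⟩)
  have k2 : nb (St A) L2 ≤ 1 := nb_le_one fun a ha c hc => by
    obtain ⟨a1, b, a2, a3⟩ := (mem_filter.1 ha).2
    obtain ⟨c1, d, c2, c3⟩ := (mem_filter.1 hc).2
    obtain ⟨σ, s1, s2, -⟩ := iso_edges c1 c3 a1 a3 c2 a2 (ne c2) (ne a2)
    exact ⟨⟨σ, s1⟩, s2⟩
  have k1 : nb (St A) L1 ≤ nb (St A) (good 2 A) := by
    obtain ⟨R, r1, r2, r3, -⟩ := reps (Γ := St A) L1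
    have : ∀ v, ∃ m, v ∈ L1 → s(v, m) ∈ A ∧ dg A m ≠ 1 := fun v => by
      by_cases h : v ∈ L1
      · exact (mem_filter.1 h).2.2.imp fun m k _ => k
      · exact ⟨v, fun k => absurd k h⟩
    choose n hn using this
    rw [← r2]
    refine card_le_card_of_injOn (fun v => cl (St A) (n v)) (fun v hv => ?_) fun a ha c hc e => ?_
    · have := (hn v (r1 hv)).2
      exact mem_coe.2 (mem_image_of_mem _ (mem_filter.2 ⟨mem_univ _, by omega⟩))
    · obtain ⟨⟨σ, hσ⟩, e⟩ := cl_eq.1 e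
      have e : σ (n c) = n a := e
      have hσ' : σ • A = A := hσ
      have t1 : s(σ c, n a) ∈ A := by
        rw [← e, ← smul_mk, ← hσ']
        exact smul_mem_smul_finset (hσ'.symm ▸ (hn c (r1 hc)).1)
      have t2 : dg A (σ c) = 1 := by
        have := dg_smul σ A c
        rw [hσ'] at this
        exact this.trans (mem_filter.1 (r1 hc)).2.1
      have t3 := twin (mem_filter.1 (r1 ha)).2.1 t2 (hn a (r1 ha)).1 t1 (ne (hn a (r1 ha)).1) (ne t1)
      exact r3 a ha c hc (⟨_, t3⟩ * ⟨σ, hσ⟩) (swap_apply_right a (σ c))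
  have k3 := nb_union_le (Γ := St A) (F := good 2 A) (S := L1 ∪ L2)
  have k4 := nb_union_le (Γ := St A) (F := L1) (S := L2)
  omega

/-- The fixed points. -/
noncomputable def fx (σ : Perm V) : Finset V := univ.filter fun v => σ v = v

lemma few_fix (A : Finset (Sym2 V)) :
    ∃ σ : Perm V, σ • A = A ∧ (fx σ).card ≤ nb (St A) (univ : Finset V) := by
  have h := burnside (Γ := St A) (F := (univ : Finset V)) fun _ _ _ => mem_univ _
  rw [mul_comm, ← card_univ, ← smul_eq_mul, ← sum_const] at h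
  obtain ⟨σ, -, k⟩ := exists_le_of_sum_le univ_nonempty h.ge
  exact ⟨σ.1, σ.2, k⟩

end Pool.Agent.MP_5f0aae_co.Un
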