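import Pool.Agent.MP_5f0aae_co.Un.Few

/-! Graphs fixed by a permutation, and graphs with a point of small degree. -/

namespace Pool.Agent.MP_5f0aae_co.Un

open Finset MulAction Equiv Real
open scoped Classical Pointwise

variable {V : Type}

/-- The sets of `q` pairs of points of `W` that a permutation fixes. -/
noncomputable def Fx (σ : Perm V) (W : Finset V) (q : ℕ) : Finset (Finset (Sym2 V)) :=
  ((prs W).powersetCard q).filter fun A => σ • A = A

/-- The fixed pairs. -/
noncomputable def kz (σ : Perm V) (W : Finset V) : Finset (Sym2 V) :=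
  (prs W).filter fun e => σ • e = e

lemma sum_pow_card {α : Type} (E : Finset α) (x : ℝ) :
    ∑ A ∈ E.powerset, x ^ A.card = (1 + x) ^ E.card := by
  have := prod_one_add (s := E) (f := fun _ => x)
  simpa using this.symm

theorem fix_le (σ : Perm V) (W : Finset V) (hW : ∀ a ∈ W, σ a ∈ W) (q : ℕ) {x : ℝ} (x0 : 0 ≤ x)
    (x1 : x ≤ 1) : ∃ μ : ℕ, (kz σ W).card + 2 * μ ≤ (prs W).card ∧
      (Fx σ W q).card * x ^ q ≤ (1 + x) ^ (kz σ W).card * (1 + x ^ 2) ^ μ := by
  obtain ⟨M, m1, -, m3, m4⟩ := reps (Γ := Subgroup.zpowers σ) (prs W \ kz σ W)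
  have nf : ∀ e ∈ M, σ • e ≠ e := fun e he k =>
    (mem_sdiff.1 (m1 he)).2 (mem_filter.2 ⟨(mem_sdiff.1 (m1 he)).1, k⟩)
  have key : ∀ B : Finset (Sym2 V), (∀ e ∈ B, σ • e ∈ B) →
      (B ∩ kz σ W).card + 2 * (B ∩ M).card ≤ B.card := fun B hB => by
    have d1 : Disjoint (B ∩ M) (σ • (B ∩ M)) := disjoint_left.2 fun e h1 h2 => by
      obtain ⟨e', h3, rfl⟩ := mem_smul_finset.1 h2
      exact nf e' (mem_inter.1 h3).2 (m3 _ (mem_inter.1 h1).2 _ (mem_inter.1 h3).2
        ⟨σ, Subgroup.mem_zpowers σ⟩ rfl)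
    have d2 : Disjoint (B ∩ kz σ W) (B ∩ M ∪ σ • (B ∩ M)) := disjoint_left.2 fun e h1 h2 => by
      have k := (mem_filter.1 (mem_inter.1 h1).2).2
      rcases mem_union.1 h2 with h2 | h2
      · exact nf e (mem_inter.1 h2).2 k
      · obtain ⟨e', h3, rfl⟩ := mem_smul_finset.1 h2
        exact nf e' (mem_inter.1 h3).2 (MulAction.injective σ k)
    have h := card_le_card (union_subset inter_subset_left (union_subset inter_subset_left
      fun e he => by
        obtain ⟨e', h3, rfl⟩ := mem_smul_finset.1 he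
        exact hB e' (mem_inter.1 h3).1) : B ∩ kz σ W ∪ (B ∩ M ∪ σ • (B ∩ M)) ⊆ B)
    rw [card_union_of_disjoint d2, card_union_of_disjoint d1, card_smul_finset] at h
    omega
  refine ⟨M.card, ?_, ?_⟩
  · have := key (prs W) fun e he => smul_prs hW he
    have k : kz σ W ⊆ prs W := filter_subset _ _
    rwa [inter_eq_right.2 k, inter_eq_right.2 (m1.trans sdiff_subset)] at this
  have sub : ∀ A ∈ Fx σ W q, ∀ A' ∈ Fx σ W q, A ∩ kz σ W = A' ∩ kz σ W → A ∩ M = A' ∩ M →
      A ⊆ A' := fun A hA A' hA' e1 e2 e he => by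
    by_cases k : e ∈ kz σ W
    · exact (mem_inter.1 (e1 ▸ mem_inter.2 ⟨he, k⟩)).1
    obtain ⟨⟨g, hg⟩, k'⟩ := m4 e (mem_sdiff.2 ⟨(mem_powersetCard.1 (mem_filter.1 hA).1).1 he, k⟩)
    have g1 : g • A = A :=
      (Subgroup.zpowers_le.2 (mem_filter.1 hA).2 : _ ≤ stabilizer (Perm V) A) hg
    have g2 : g • A' = A' :=
      (Subgroup.zpowers_le.2 (mem_filter.1 hA').2 : _ ≤ stabilizer (Perm V) A') hg
    have g3 : g • e ∈ A ∩ M := mem_inter.2 ⟨g1 ▸ smul_mem_smul_finset he, k'⟩
    rw [e2, ← g2] at g3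
    exact (smul_mem_smul_finset_iff g).1 (mem_inter.1 g3).1
  rw [← sum_pow_card, ← sum_pow_card, sum_mul_sum, ← sum_product', ← nsmul_eq_mul, ← sum_const]
  refine le_trans (sum_le_sum (g := fun A => x ^ (A ∩ kz σ W).card * (x ^ 2) ^ (A ∩ M).card)
    fun A hA => ?_) ?_
  · rw [← pow_mul, ← pow_add]
    refine pow_le_pow_of_le_one x0 x1 ?_
    rw [← (mem_powersetCard.1 (mem_filter.1 hA).1).2]
    exact key A fun e he => (mem_filter.1 hA).2 ▸ smul_mem_smul_finset he
  · rw [← sum_image (g := fun A => (A ∩ kz σ W, A ∩ M))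
      (f := fun y => x ^ y.1.card * (x ^ 2) ^ y.2.card) fun A hA A' hA' e =>
        (sub A hA A' hA' (congrArg Prod.fst e) (congrArg Prod.snd e)).antisymm
          (sub A' hA' A hA (congrArg Prod.fst e).symm (congrArg Prod.snd e).symm)]
    refine sum_le_sum_of_subset_of_nonneg (fun y hy => ?_) fun _ _ _ => by positivity
    obtain ⟨A, -, rfl⟩ := mem_image.1 hy
    exact mem_product.2 ⟨mem_powerset.2 inter_subset_right, mem_powerset.2 inter_subset_right⟩

lemma kz_le (σ : Perm V) (W : Finset V) : (kz σ W).card ≤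
    (W.filter fun v => σ v = v).card.choose 2 + (W.filter fun v => ¬ σ v = v).card := by
  rw [← card_prs]
  refine (card_le_card (t := prs (W.filter fun v => σ v = v) ∪
    (W.filter fun v => ¬ σ v = v).image fun a => s(a, σ a)) fun e he => ?_).trans
    ((card_union_le _ _).trans (Nat.add_le_add_left card_image_le _))
  obtain ⟨h1, h2⟩ := mem_filter.1 he
  induction e using Sym2.ind with
  | _ a b =>
    obtain ⟨k1, k2, k3⟩ := mk_mem_prs.1 h1
    rcases Sym2.eq_iff.1 h2 with ⟨e1, e2⟩ | ⟨e1, e2⟩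
    · exact mem_union_left _ (mk_mem_prs.2 ⟨mem_filter.2 ⟨k1, e1⟩, mem_filter.2 ⟨k2, e2⟩, k3⟩)
    · exact mem_union_right _
        (mem_image.2 ⟨a, mem_filter.2 ⟨k1, fun k => k3 (k.symm.trans e1)⟩, by rw [e1]⟩)

lemma max_term {N q : ℕ} (hq : q < N) {x : ℝ} (hx : x * (N - q) = q) :
    (1 + x) ^ N ≤ (N + 1) * (N.choose q * x ^ q) := by
  have hN : (0 : ℝ) < N - q := sub_pos.2 (by exact_mod_cast hq)
  have x0 : 0 ≤ x := nonneg_of_mul_nonneg_left (hx.symm ▸ Nat.cast_nonneg q) hN
  set t : ℕ → ℝ := fun j => N.choose j * x ^ j with ht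
  have t0 : ∀ j, 0 ≤ t j := fun j => by positivity
  have st : ∀ j, t (j + 1) * (j + 1) = t j * (x * (N - j : ℕ)) := fun j => by
    have : ((N.choose (j + 1) : ℝ)) * (j + 1) = N.choose j * (N - j : ℕ) := by
      exact_mod_cast Nat.choose_succ_right_eq N j
    simp only [ht]
    linear_combination x ^ (j + 1) * this
  have up : ∀ k j, j + k = q → t j ≤ t q := fun k => by
    induction k with
    | zero => exact fun j h => (congrArg t h).le
    | succ k ih =>
      refine fun j h => le_trans ?_ (ih (j + 1) (by omega))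
      refine le_of_mul_le_mul_right ?_ (by positivity : (0 : ℝ) < j + 1)
      rw [st, Nat.cast_sub (by omega)]
      have : (j : ℝ) + 1 ≤ q := by exact_mod_cast (by omega : j + 1 ≤ q)
      exact mul_le_mul_of_nonneg_left (by nlinarith) (t0 j)
  have dn : ∀ k, t (q + k) ≤ t q := fun k => by
    induction k with
    | zero => exact le_rfl
    | succ k ih =>
      refine le_trans ?_ ih
      refine le_of_mul_le_mul_right ?_ (by positivity : (0 : ℝ) < (q + k : ℕ) + 1)
      rw [← add_assoc, st]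
      have h1 : ((N - (q + k) : ℕ) : ℝ) ≤ N - q := by
        rw [← Nat.cast_sub hq.le]; exact_mod_cast (by omega : N - (q + k) ≤ N - q)
      have h2 : (q : ℝ) ≤ (q + k : ℕ) + 1 := by exact_mod_cast (by omega : q ≤ q + k + 1)
      exact mul_le_mul_of_nonneg_left (by nlinarith) (t0 _)
  rw [add_comm, add_pow]
  refine (sum_le_card_nsmul _ _ (t q) fun j _ => ?_).trans (by simp [ht])
  rw [one_pow, mul_one, mul_comm]
  rcases le_total j q with h | h
  · exact up (q - j) j (by omega)
  · obtain ⟨k, rfl⟩ := Nat.exists_eq_add_of_le h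
    exact dn k

lemma choose_avoid {N j : ℕ} (hj : j ≤ N) (s : ℕ) (hs : s ≤ N) :
    ((N - s).choose j : ℝ) ≤ N.choose j * exp (-(j / N)) ^ s := by
  induction s with
  | zero => simp
  | succ s ih =>
    obtain ⟨M, hM⟩ : ∃ M, N - s = M + 1 := ⟨N - (s + 1), by omega⟩
    have N0 : (0 : ℝ) < N := by exact_mod_cast (by omega : 0 < N)
    have h1 : (M.choose j : ℝ) * (M + 1) = (M + 1).choose j * (M + 1 - j : ℕ) := by
      exact_mod_cast Nat.choose_mul_succ_eq M j
    have h2 : ((M + 1 - j : ℕ) : ℝ) ≤ exp (-(j / N)) * (M + 1) := by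
      refine le_trans ?_ (mul_le_mul_of_nonneg_right (add_one_le_exp _) (by positivity))
      have k1 : (j : ℝ) / N ≤ 1 := (div_le_one N0).2 (by exact_mod_cast hj)
      rcases le_total j (M + 1) with h | h
      · have k2 : (M : ℝ) + 1 ≤ N := by exact_mod_cast (by omega : M + 1 ≤ N)
        have k3 : (j : ℝ) / N * (M + 1) ≤ j / N * N := by gcongr
        rw [div_mul_cancel₀ _ N0.ne'] at k3
        rw [Nat.cast_sub h]
        push_cast
        linarith
      · rw [Nat.sub_eq_zero_of_le h, Nat.cast_zero]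
        exact mul_nonneg (by linarith) (by positivity)
    have ih := ih (by omega)
    rw [hM] at ih
    rw [show N - (s + 1) = M by omega, pow_succ, ← mul_assoc]
    refine le_of_mul_le_mul_right ?_ (by positivity : (0 : ℝ) < M + 1)
    rw [h1, mul_assoc]
    exact mul_le_mul ih h2 (by positivity) (by positivity)

/-- The sets of `j` pairs of points of `W` with all degrees at least three. -/
noncomputable def Mn (W : Finset V) (j : ℕ) : Finset (Finset (Sym2 V)) :=
  ((prs W).powersetCard j).filter fun H => ∀ u ∈ W, 3 ≤ dg H u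

lemma mem_Mn {W : Finset V} {j : ℕ} {H : Finset (Sym2 V)} :
    H ∈ Mn W j ↔ H ∈ (prs W).powersetCard j ∧ ∀ u ∈ W, 3 ≤ dg H u := mem_filter

theorem min_le (W : Finset V) {j n N : ℕ} (hn : W.card = n) (hN : n.choose 2 = N) (n3 : 3 ≤ n)
    (hj : j ≤ N) :
    (N.choose j : ℝ) * (1 - n ^ 3 * exp (-(j / N)) ^ (n - 3)) ≤ (Mn W j).card := by
  have cN : (prs W).card = N := by rw [card_prs, hn, hN]
  have h1 := card_filter_add_card_filter_not (s := (prs W).powersetCard j)
    fun H => ∀ u ∈ W, 3 ≤ dg H u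
  rw [card_powersetCard, cN] at h1
  have h2 : (((prs W).powersetCard j).filter fun H => ¬ ∀ u ∈ W, 3 ≤ dg H u).card ≤
      n * (n ^ 2 * (N - (n - 3)).choose j) := by
    refine (card_le_card (t := W.biUnion fun u =>
      (((prs W).filter fun e => u ∈ e).powersetCard (n - 3)).biUnion fun S =>
        (prs W \ S).powersetCard j) fun H hH => ?_).trans ?_
    · obtain ⟨k1, k2⟩ := mem_filter.1 hH
      obtain ⟨k0, k1⟩ := mem_powersetCard.1 k1
      push Not at k2
      obtain ⟨u, hu, k2⟩ := k2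
      have k3 := dg_sdiff k0 u
      rw [dg_prs hu, hn] at k3
      obtain ⟨S, s1, s2⟩ := exists_subset_card_eq (s := (prs W \ H).filter fun e => u ∈ e)
        (n := n - 3) (by change _ ≤ dg _ u; omega)
      refine mem_biUnion.2 ⟨u, hu, mem_biUnion.2 ⟨S, mem_powersetCard.2
        ⟨s1.trans (filter_subset_filter _ sdiff_subset), s2⟩, mem_powersetCard.2 ⟨?_, k1⟩⟩⟩
      exact fun e he => mem_sdiff.2 ⟨k0 he, fun k => (mem_sdiff.1 (mem_filter.1 (s1 k)).1).2 he⟩
    · rw [← hn]
      refine card_biUnion_le_card_mul _ _ _ fun u hu => ?_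
      refine (card_biUnion_le_card_mul _ _ ((N - (n - 3)).choose j) fun S hS => ?_).trans ?_
      · obtain ⟨s1, s2⟩ := mem_powersetCard.1 hS
        rw [card_powersetCard, card_sdiff_of_subset (s1.trans (filter_subset _ _)), cN, hn] at *
        rw [s2]
      · rw [card_powersetCard, hn]
        refine Nat.mul_le_mul_right _ ?_
        change (dg _ u).choose _ ≤ _
        rw [dg_prs hu, hn, Nat.choose_symm_of_eq_add (by omega : n - 1 = n - 3 + 2)]
        exact (Nat.choose_le_pow _ _).trans (Nat.pow_le_pow_left (by omega) 2)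
  have h3 := choose_avoid hj (n - 3) (by
    have := card_filter_le (prs W)
    obtain ⟨u, hu⟩ := card_pos.1 (by omega : 0 < W.card)
    have := (dg_prs hu).ge.trans (card_filter_le _ _)
    omega)
  have h4 : (N.choose j : ℝ) ≤ (Mn W j).card + n * (n ^ 2 * (N - (n - 3)).choose j) := by
    rw [Mn]; exact_mod_cast (by omega)
  have h5 : (n : ℝ) ^ 3 * (N - (n - 3)).choose j ≤
      n ^ 3 * (N.choose j * exp (-(j / N)) ^ (n - 3)) := by gcongr
  nlinarith

variable [Fintype V]

lemma sum_moved {w : ℝ} (w0 : 0 ≤ w) (hw : (Fintype.card V : ℝ) ^ 2 * w ≤ 1) :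
    ∑ σ ∈ (univ : Finset (Perm V)).erase 1, w ^ (univ.filter fun v => ¬ σ v = v).card ≤
      2 * ((Fintype.card V : ℝ) ^ 2 * w) := by
  set p : ℝ := (Fintype.card V : ℝ) with hp
  have p0 : 0 ≤ p := Nat.cast_nonneg _
  have h1 : ∑ σ : Perm V, w ^ (univ.filter fun v => ¬ σ v = v).card ≤
      ∏ v : V, ∑ u : V, if ¬ u = v then w else 1 := by
    rw [prod_univ_sum, Fintype.piFinset_univ]
    have : ∀ σ : Perm V, w ^ (univ.filter fun v => ¬ σ v = v).card =
        ∏ v, if ¬ σ v = v then w else 1 := fun σ => by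
      rw [← prod_filter, prod_const]
    simp only [this]
    rw [← sum_image (g := fun σ : Perm V => (σ : V → V))
      (f := fun f => ∏ v, if ¬ f v = v then w else 1) fun _ _ _ _ e => DFunLike.coe_injective e]
    exact sum_le_sum_of_subset_of_nonneg (subset_univ _) fun _ _ _ =>
      prod_nonneg fun _ _ => by split_ifs <;> positivity
  have h2 : ∏ v : V, ∑ u : V, (if ¬ u = v then w else 1) ≤ ∏ _v : V, exp (p * w) := by
    refine prod_le_prod (fun _ _ => sum_nonneg fun _ _ => by split_ifs <;> positivity)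
      fun v _ => le_trans ?_ (add_one_le_exp _)
    refine (sum_le_sum (g := fun u => w + if u = v then 1 else 0) fun u _ => ?_).trans ?_
    · by_cases h : u = v <;> simp [h, w0]
    · simp [sum_add_distrib, hp]
  rw [prod_const, card_univ, ← exp_nat_mul, ← hp, ← mul_assoc, ← sq] at h2
  have h3 := (abs_le.1 (abs_exp_sub_one_le (x := p ^ 2 * w)
    (by rwa [abs_of_nonneg (by positivity)]))).2
  rw [abs_of_nonneg (by positivity)] at h3
  rw [← add_sum_erase _ _ (mem_univ (1 : Perm V))] at h1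
  simp only [Perm.one_apply, not_true, filter_false, card_empty, pow_zero] at h1
  linarith

theorem err_le (W : Finset V) {q n N : ℕ} (hn : W.card = n) (hN : n.choose 2 = N) (n3 : 3 ≤ n)
    (q0 : 0 < q) (hq : 2 * q ≤ N) {w : ℝ} (w1 : exp (-(q / N * (n - 3) / 8)) ≤ w)
    (hw : (Fintype.card V : ℝ) ^ 2 * w ≤ 1) :
    (∑ σ ∈ ((univ : Finset (Perm V)).erase 1).filter fun σ => ∀ a, a ∉ W → σ a = a,
      (Fx σ W q).card : ℝ) ≤ N.choose q * ((N + 1) * (2 * ((Fintype.card V : ℝ) ^ 2 * w))) := by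
  have w0 : 0 ≤ w := (exp_pos _).le.trans w1
  have q1 : (0 : ℝ) < q := by exact_mod_cast q0
  have q2 : 2 * (q : ℝ) ≤ N := by exact_mod_cast hq
  have n4 : (3 : ℝ) ≤ n := by exact_mod_cast n3
  set x : ℝ := q / (N - q) with hx
  have x0 : 0 < x := div_pos q1 (by linarith)
  have x1 : x ≤ 1 := (div_le_one (by linarith)).2 (by linarith)
  have x2 : (q : ℝ) / N ≤ x := div_le_div_of_nonneg_left q1.le (by linarith) (by linarith)
  have mt := max_term (N := N) (q := q) (by omega) (x := x) (div_mul_cancel₀ _ (by linarith))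
  refine le_trans ?_ (mul_le_mul_of_nonneg_left (mul_le_mul_of_nonneg_left (sum_moved w0 hw)
    (by positivity)) (by positivity))
  rw [mul_sum, mul_sum]
  refine le_trans (sum_le_sum fun σ hσ => ?_)
    (sum_le_sum_of_subset_of_nonneg (filter_subset _ _) fun _ _ _ => by positivity)
  have hσ := (mem_filter.1 hσ).2
  obtain ⟨μ, m1, m2⟩ := fix_le σ W (fun a ha => by
    by_contra k
    exact k ((σ.injective (hσ _ k)).symm ▸ ha)) q x0.le x1
  have m3 := kz_le σ W
  have m4 := card_filter_add_card_filter_not (s := W) fun v => σ v = v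
  have m5 : (univ.filter fun v => ¬ σ v = v) = W.filter fun v => ¬ σ v = v := by
    ext v
    simp only [mem_filter, mem_univ, true_and]
    exact ⟨fun k => ⟨by_contra fun k' => k (hσ v k'), k⟩, fun k => k.2⟩
  rw [m5]
  rw [card_prs, hn, hN] at m1
  rw [hn] at m4
  set k := (kz σ W).card
  set m := (W.filter fun v => ¬ σ v = v).card
  set f := (W.filter fun v => σ v = v).card
  obtain ⟨j, hj⟩ : ∃ j, N = k + j := ⟨N - k, by omega⟩
  have j1 : (m : ℝ) * (n - 3) ≤ 2 * j := by
    have a1 : (k : ℝ) ≤ f.choose 2 + m := by exact_mod_cast m3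
    have a2 : (n.choose 2 : ℝ) = k + j := by exact_mod_cast hN.trans hj
    have a3 : (f : ℝ) + m = n := by exact_mod_cast m4
    rw [Nat.cast_choose_two] at a1 a2
    rw [← a3] at a2 ⊢
    nlinarith [mul_nonneg (Nat.cast_nonneg (α := ℝ) f) (Nat.cast_nonneg (α := ℝ) m)]
  have r1 : 1 + x / 2 ≤ (1 + x) * exp (-(x / 4)) := by nlinarith [add_one_le_exp (-(x / 4))]
  have r2 : (1 + x ^ 2) ^ μ ≤ ((1 + x) * exp (-(x / 4))) ^ j := by
    refine le_trans ?_ (pow_le_pow_right₀ (by linarith) (by omega : 2 * μ ≤ j))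
    rw [pow_mul]
    exact pow_le_pow_left₀ (by positivity)
      (le_trans (by nlinarith) (pow_le_pow_left₀ (by positivity) r1 2)) μ
  have r3 : exp (-(x / 4)) ^ j ≤ w ^ m := by
    refine le_trans ?_ (pow_le_pow_left₀ (exp_pos _).le w1 m)
    rw [← exp_nat_mul, ← exp_nat_mul]
    refine exp_le_exp.2 ?_
    have : q / N * (m * (n - 3 : ℝ)) ≤ x * (2 * j) :=
      mul_le_mul x2 j1 (mul_nonneg (by positivity) (by linarith)) x0.le
    linarith
  refine le_of_mul_le_mul_right (m2.trans ?_) (pow_pos x0 q)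
  calc _ ≤ (1 + x) ^ k * ((1 + x) * exp (-(x / 4))) ^ j := by gcongr
    _ = (1 + x) ^ N * exp (-(x / 4)) ^ j := by rw [hj, mul_pow, pow_add, mul_assoc]
    _ ≤ (N + 1) * (N.choose q * x ^ q) * w ^ m := by gcongr
    _ = _ := by ring

end Pool.Agent.MP_5f0aae_co.Un
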