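import Pool.Agent.MP_5f0aae_co.Un.Fix

/-! The sparse range: most classes have many orbits of points. -/

namespace Pool.Agent.MP_5f0aae_co.Un

open Finset MulAction Equiv Real
open scoped Classical Pointwise

lemma choose_succ_two (m : ℕ) : (m + 1).choose 2 = m.choose 2 + m := by
  rw [Nat.choose_succ_succ, Nat.choose_one_right, add_comm]

lemma two_choose (n : ℕ) : 2 * n.choose 2 + n = n ^ 2 := by
  induction n with
  | zero => rfl
  | succ n ih => rw [choose_succ_two]; nlinarith

lemma pow_le_choose {M r : ℕ} {a : ℝ} (a0 : 0 ≤ a) (h : a * r + r ≤ M) : a ^ r ≤ M.choose r := by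
  have h1 : ((M + 1 - r : ℕ) : ℝ) ^ r ≤ (r : ℝ) ^ r * M.choose r := by
    have := Nat.pow_sub_le_descFactorial M r
    rw [Nat.descFactorial_eq_factorial_mul_choose] at this
    exact_mod_cast this.trans (Nat.mul_le_mul_right _ (Nat.factorial_le_pow r))
  have h2 : r ≤ M := by
    have : 0 ≤ a * r := by positivity
    exact_mod_cast (by linarith : (r : ℝ) ≤ M)
  have h3 : (0 : ℝ) < (r : ℝ) ^ r := by
    rcases Nat.eq_zero_or_pos r with rfl | k
    · simp
    · positivity
  refine le_of_mul_le_mul_left (le_trans ?_ h1) h3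
  rw [← mul_pow, Nat.cast_sub (by omega)]
  refine pow_le_pow_left₀ (by positivity) ?_ r
  push_cast
  linarith

variable {V : Type} [Fintype V]

theorem bad_le (q K : ℕ) (S : Finset (Finset (Sym2 V)))
    (hS : ∀ A ∈ S, A ∈ Gr V q ∧ (nb (St A) (univ : Finset V)).choose 2 ≤ K) {x : ℝ} (x0 : 0 ≤ x)
    (x1 : x ≤ 1) : (nb (Perm V) S : ℝ) * x ^ q ≤
      2 ^ Fintype.card V * (2 ^ (K + Fintype.card V) * exp (x ^ 2 * (Fintype.card V : ℝ) ^ 2)) := by
  set rp : (Fintype.card V).Partition → Perm V := Function.invFun Perm.partition with hrp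
  set R := (univ.image rp).filter fun σ => (fx σ).card.choose 2 ≤ K with hR
  have h1 : nb (Perm V) S ≤ ∑ σ ∈ R, (Fx σ univ q).card := by
    refine (nb_le_nb (S := R.biUnion fun σ => Fx σ univ q) fun A hA => ?_).trans
      (nb_le_card.trans card_biUnion_le)
    obtain ⟨σ, s1, s2⟩ := few_fix A
    obtain ⟨τ, e⟩ := isConj_iff.1 (Perm.partition_eq_of_isConj.2
      (Function.invFun_eq ⟨σ, rfl⟩ : (rp σ.partition).partition = σ.partition).symm)
    replace e : τ * σ * τ⁻¹ = rp σ.partition := e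
    refine ⟨τ, mem_biUnion.2 ⟨rp σ.partition, mem_filter.2 ⟨mem_image_of_mem _ (mem_univ _),
      le_trans (Nat.choose_le_choose 2 (le_trans ?_ s2)) (hS A hA).2⟩,
      mem_filter.2 ⟨inv_Gr q τ A (hS A hA).1, ?_⟩⟩⟩
    · refine card_le_card_of_injOn (fun v => τ⁻¹ v) (fun v hv => ?_) (τ⁻¹.injective.injOn)
      have := (mem_filter.1 (mem_coe.1 hv)).2
      rw [← e] at this
      exact mem_coe.2 (mem_filter.2 ⟨mem_univ _, Perm.eq_inv_iff_eq.2 this⟩)
    · rw [← e, mul_smul, mul_smul, inv_smul_smul, s1]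
  have h2 : R.card ≤ 2 ^ Fintype.card V := by
    refine (card_filter_le _ _).trans (card_image_le.trans ?_)
    rw [card_univ]
    refine (Fintype.card_le_of_surjective _ Nat.Partition.ofComposition_surj).trans ?_
    rw [composition_card]
    exact Nat.pow_le_pow_right (by norm_num) (by omega)
  have h3 : (nb (Perm V) S : ℝ) ≤ ∑ σ ∈ R, ((Fx σ univ q).card : ℝ) := by exact_mod_cast h1
  refine (mul_le_mul_of_nonneg_right h3 (by positivity)).trans ?_
  rw [sum_mul]
  refine (sum_le_card_nsmul _ _ (2 ^ (K + Fintype.card V) *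
    exp (x ^ 2 * (Fintype.card V : ℝ) ^ 2)) fun σ hσ => ?_).trans ?_
  · obtain ⟨μ, m1, m2⟩ := fix_le σ univ (fun _ _ => mem_univ _) q x0 x1
    have m3 := kz_le σ univ
    have m4 : (fx σ).card.choose 2 ≤ K := (mem_filter.1 hσ).2
    have m5 := card_filter_le (univ : Finset V) fun v => ¬ σ v = v
    have m6 := two_choose (Fintype.card V)
    rw [card_prs, card_univ] at m1
    rw [card_univ] at m5
    rw [fx] at m4
    refine m2.trans (mul_le_mul ?_ ?_ (by positivity) (by positivity))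
    · exact (pow_le_pow_left₀ (by positivity) (by linarith) _).trans
        (pow_le_pow_right₀ (by norm_num) (by omega))
    · refine (pow_le_pow_left₀ (by positivity) ((add_comm _ _).trans_le (add_one_le_exp _)) _).trans ?_
      rw [← exp_nat_mul, mul_comm]
      have : (μ : ℝ) ≤ (Fintype.card V : ℝ) ^ 2 := by
        exact_mod_cast (by omega : μ ≤ Fintype.card V ^ 2)
      gcongr
  · rw [nsmul_eq_mul]
    exact mul_le_mul_of_nonneg_right (by exact_mod_cast h2) (by positivity)

theorem low_le {d q n : ℕ} (hd : d = 2 ∨ n ≤ d) (n4 : 4 ≤ n) (hn : n ≤ Fintype.card V)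
    (hq : 3 * n ≤ q) :
    ∃ r, r ≤ q ∧ q ≤ r + 3 * n ∧ ((n - 3).choose 2).choose r ≤ n ^ n * uu V d q := by
  obtain ⟨W, -, w1⟩ := exists_subset_card_eq (s := (univ : Finset V)) (n := n) hn
  obtain ⟨U, u1, u2⟩ := exists_subset_card_eq (s := W) (n := n - 3) (by omega)
  have u3 := prs_mono u1
  set B := prs W \ prs U with hB
  have b1 : B.card ≤ 3 * n := by
    obtain ⟨m, rfl⟩ : ∃ m, n = m + 3 := ⟨n - 3, by omega⟩
    rw [hB, card_sdiff_of_subset u3, card_prs, card_prs, w1, u2, Nat.add_sub_cancel,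
      choose_succ_two, choose_succ_two, choose_succ_two]
    omega
  have b2 : ∀ u ∈ W, 3 ≤ dg B u := fun u hu => by
    have := dg_sdiff u3 u
    rw [dg_prs hu, w1, ← hB] at this
    by_cases k : u ∈ U
    · rw [dg_prs k, u2] at this; omega
    · rw [dg_off Subset.rfl k] at this; omega
  have dj : ∀ H ∈ (prs U).powersetCard (q - B.card), Disjoint H B := fun H hH =>
    disjoint_sdiff.mono_left (mem_powersetCard.1 hH).1
  set S := ((prs U).powersetCard (q - B.card)).image fun H => H ∪ B with hS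
  have s1 : ∀ A ∈ S, A ⊆ prs W ∧ A ∈ Fr V d q := fun A hA => by
    obtain ⟨H, hH, rfl⟩ := mem_image.1 hA
    have k : H ∪ B ⊆ prs W := union_subset ((mem_powersetCard.1 hH).1.trans u3) sdiff_subset
    refine ⟨k, mem_Fr.2 ⟨⟨k.trans (prs_mono (subset_univ _)), ?_⟩, fun v => ?_⟩⟩
    · rw [card_union_of_disjoint (dj H hH), (mem_powersetCard.1 hH).2]; omega
    · by_cases hv : v ∈ W
      · have k1 := (b2 v hv).trans (dg_mono (subset_union_right (s₁ := H)) v)
        have k2 := dg_mono k v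
        rw [dg_prs hv, w1] at k2
        omega
      · rw [dg_off k hv]; omega
  refine ⟨q - B.card, by omega, by omega, ?_⟩
  rw [← u2, ← card_prs, ← card_powersetCard, ← card_image_of_injOn (f := fun H => H ∪ B)
    fun H hH H' hH' e => by
      rw [← union_sdiff_cancel_right (dj H hH), ← union_sdiff_cancel_right (dj H' hH')]
      exact congrArg (· \ B) e]
  refine (card_le_nb (Γ := Perm V) (n ^ n) fun A hA => ?_).trans
    (Nat.mul_le_mul_left _ (nb_mono fun A hA => (s1 A hA).2))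
  refine ⟨(Fintype.piFinset fun v => if v ∈ W then W else {v}).image
    fun f => A.image (Sym2.map f), card_image_le.trans (le_of_eq ?_), fun g k => ?_⟩
  · simp only [Fintype.card_piFinset, apply_ite card, card_singleton, prod_ite_mem, univ_inter,
      prod_const, w1]
  · refine mem_image.2 ⟨fun v => if v ∈ W ∧ g v ∈ W then g v else v,
      Fintype.mem_piFinset.2 fun v => ?_, image_congr fun e he => Sym2.map_congr fun v hv => ?_⟩
    · by_cases k1 : v ∈ W <;> by_cases k2 : g v ∈ W <;> simp [k1, k2]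
    · exact if_pos ⟨(mem_prs.1 ((s1 A hA).1 he)).1 v hv,
        (mem_prs.1 ((s1 _ k).1 (smul_mem_smul_finset he))).1 _ ((smul_mem g).2 hv)⟩

theorem rangeB {d q p : ℕ} (hp : Fintype.card V = p) (hd : d = 2 ∨ d + 3 = p)
    (big : (2 ^ 155) ^ 8 ≤ p) (h1 : p < 2 * (q + 1)) (h2 : q ^ 2 ≤ p ^ 3) :
    uu V d q < uu V d (q + 1) := by
  have p1 : 2000 ≤ p := le_trans (by norm_num) big
  set Ω := (Fr V d q).image (cl (Perm V)) with hΩ
  set bd := fun ω : Quotient (orbitRel (Perm V) (Finset (Sym2 V))) =>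
    (nb (St ω.out) (good d ω.out)).choose 2 < 4 * (q + 1) with hbd
  have k1 : (Ω.filter fun ω => ¬ bd ω).card * (3 * (q + 1)) ≤ uu V d (q + 1) * (q + 1) := by
    refine le_trans ?_ (pairs d q)
    refine le_trans ?_ (sum_le_sum_of_subset (filter_subset (fun ω => ¬ bd ω) _))
    rw [← smul_eq_mul]
    refine card_nsmul_le_sum _ _ _ fun ω hω => ?_
    have := not_lt.1 (mem_filter.1 hω).2
    omega
  have k2 : (Ω.filter fun ω => ¬ bd ω).card * 3 ≤ uu V d (q + 1) :=
    Nat.le_of_mul_le_mul_right (by rwa [mul_assoc]) (Nat.succ_pos q)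
  have k3 : (Ω.filter bd).card + (Ω.filter fun ω => ¬ bd ω).card = uu V d q :=
    card_filter_add_card_filter_not _
  suffices h : 2 * (Ω.filter bd).card ≤ uu V d q ∧ 0 < uu V d q by omega
  have k4 : (Ω.filter bd).card ≤ nb (Perm V) ((Ω.filter bd).image Quotient.out) :=
    card_le_card fun ω hω => mem_image.2 ⟨_, mem_image_of_mem _ hω, cl_out ω⟩
  have q0 : (0 : ℝ) < q := by exact_mod_cast (by omega : 0 < q)
  have p0 : (2000 : ℝ) ≤ p := by exact_mod_cast p1
  set t := √(√((p : ℝ) ^ 2 / q)) with ht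
  have t0 : 0 ≤ t := sqrt_nonneg _
  have t4 : t ^ 4 * q = (p : ℝ) ^ 2 := by
    rw [show t ^ 4 = (t ^ 2) ^ 2 by ring, sq_sqrt (sqrt_nonneg _), sq_sqrt (by positivity),
      div_mul_cancel₀ _ q0.ne']
  have t8 : (p : ℝ) ≤ t ^ 8 := by
    have e : (q : ℝ) ^ 2 ≤ (p : ℝ) ^ 3 := by exact_mod_cast h2
    refine le_of_mul_le_mul_right ?_ (by positivity : (0 : ℝ) < (q : ℝ) ^ 2)
    calc (p : ℝ) * q ^ 2 ≤ p * p ^ 3 := by gcongr
      _ = (t ^ 4 * q) ^ 2 := by rw [t4]; ring
      _ = _ := by ring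
  have tb : (2 : ℝ) ^ 155 ≤ t :=
    le_of_pow_le_pow_left₀ (by norm_num : 8 ≠ 0) t0 (le_trans (by exact_mod_cast big) t8)
  have t1 : 1 ≤ t := le_trans (by norm_num) tb
  have tp : 0 < t := by linarith
  have k5 := bad_le q (65 * (q + 1)) ((Ω.filter bd).image Quotient.out) (fun A hA => by
    obtain ⟨ω, hω, rfl⟩ := mem_image.1 hA
    have a1 := (inv_Fr d q).out (mem_filter.1 hω).1
    have a2 : _ < _ := (mem_filter.1 hω).2
    refine ⟨(mem_filter.1 a1).1, ?_⟩
    set A := ω.out
    have a3 := two_choose (nb (St A) (good d A))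
    have a4 := two_choose (nb (St A) (univ : Finset V))
    have a5 := orb_top d A
    have a6 := card_dg (A := A) (d - 1) (univ.filter fun v => dg A v + 1 = d) fun v hv => by
      have := (mem_filter.1 hv).2
      omega
    rw [(mem_Fr.1 a1).1.2] at a6
    rcases hd with rfl | hd
    · have a7 := orb_two (mem_Fr.1 a1).1.1
      set r := nb (St A) (good 2 A)
      set R := nb (St A) (univ : Finset V)
      have : r ^ 2 ≤ 16 * (q + 1) := by nlinarith
      nlinarith [Nat.pow_le_pow_left a7 2]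
    · set r := nb (St A) (good d A)
      set R := nb (St A) (univ : Finset V)
      set b := (univ.filter fun v => dg A v + 1 = d).card
      have c1 : r ^ 2 ≤ 16 * (q + 1) := by nlinarith
      have c2 : b * p ≤ 4 * q := (Nat.mul_le_mul_left b (by omega : p ≤ 2 * (d - 1))).trans
        (by linarith)
      have c3 : b ^ 2 ≤ 16 * p := Nat.le_of_mul_le_mul_right (c := p ^ 2)
        (by nlinarith [Nat.pow_le_pow_left c2 2]) (by positivity)
      nlinarith [Nat.pow_le_pow_left a5 2, sq_nonneg ((r : ℤ) - b)])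
    (x := 1 / t ^ 2) (by positivity) ((div_le_one (by positivity)).2 (one_le_pow₀ t1))
  have k6 : ((Ω.filter bd).card : ℝ) ≤ (2 ^ 140 * t ^ 2) ^ q := by
    have e : (1 / t ^ 2) ^ 2 * (p : ℝ) ^ 2 = q * 1 := by rw [← t4]; field_simp
    rw [hp, e, exp_nat_mul, one_div_pow, mul_one_div, div_le_iff₀ (by positivity)] at k5
    refine le_trans (by exact_mod_cast k4) (k5.trans ?_)
    rw [mul_pow, ← mul_assoc, ← pow_add, show (2 : ℝ) ^ 140 = 2 ^ 138 * 4 by norm_num, mul_pow,
      ← pow_mul (2 : ℝ)]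
    have := exp_one_lt_d9
    gcongr
    · norm_num
    · omega
    · linarith
  set n := min (p - 3) (q / 20) with hn
  obtain ⟨r, r1, r2, r3⟩ := low_le (V := V) (d := d) (q := q) (n := n) (by omega) (by omega)
    (by omega) (by omega)
  set a := t ^ 4 / 14400 with ha
  have a1 : 1 ≤ a := by
    rw [ha, le_div_iff₀ (by norm_num)]
    exact le_trans (by norm_num) (tb.trans (le_self_pow₀ t1 (by norm_num)))
  have r4 : a ^ r ≤ ((n - 3).choose 2).choose r := by
    refine pow_le_choose (by positivity) ?_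
    obtain ⟨m, hm⟩ : ∃ m, n - 3 = m + 1 := ⟨n - 4, by omega⟩
    have c1 : p ^ 2 ≤ 7200 * (m + 1).choose 2 := by
      have := two_choose (m + 1)
      nlinarith [Nat.pow_le_pow_left (by omega : p ≤ 60 * m) 2]
    have c2 : (p : ℝ) ^ 2 ≤ 7200 * (m + 1).choose 2 := by exact_mod_cast c1
    have c3 : (r : ℝ) ≤ q := by exact_mod_cast r1
    have c4 : a * r ≤ a * q := by gcongr
    have c5 : 1 * (r : ℝ) ≤ a * q := by gcongr
    have c6 : a * q = (p : ℝ) ^ 2 / 14400 := by rw [ha, ← t4]; ring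
    rw [hm]
    linarith
  have r5 : a ^ q ≤ t ^ q * uu V d q := by
    have c1 : (n : ℝ) ≤ t ^ 8 := le_trans (by exact_mod_cast (by omega : n ≤ p)) t8
    have c2 : a ≤ t ^ 4 := div_le_self (by positivity) (by norm_num)
    calc a ^ q ≤ a ^ (3 * n) * a ^ r := by
          rw [← pow_add]; exact pow_le_pow_right₀ a1 (by omega)
      _ ≤ (t ^ 4) ^ (3 * n) * ((n : ℝ) ^ n * uu V d q) := by
          gcongr
          exact r4.trans (by exact_mod_cast r3)
      _ ≤ (t ^ 4) ^ (3 * n) * ((t ^ 8) ^ n * uu V d q) := by gcongr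
      _ = t ^ (20 * n) * uu V d q := by ring
      _ ≤ _ := by gcongr; omega
  have r6 : (2 * (2 ^ 140 * t ^ 2)) ^ q ≤ uu V d q := by
    refine le_of_mul_le_mul_left (le_trans ?_ r5) (pow_pos tp q)
    rw [← mul_pow]
    refine pow_le_pow_left₀ (by positivity) ?_ q
    rw [ha, le_div_iff₀ (by norm_num)]
    calc _ = 2 ^ 141 * 14400 * t ^ 3 := by ring
      _ ≤ t * t ^ 3 := by gcongr; exact le_trans (by norm_num) tb
      _ = _ := by ring
  have r7 : (0 : ℝ) < uu V d q := lt_of_lt_of_le (by positivity) r6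
  refine ⟨?_, by exact_mod_cast r7⟩
  have : 2 * ((Ω.filter bd).card : ℝ) ≤ uu V d q := by
    refine le_trans ?_ r6
    rw [mul_pow 2]
    gcongr
    exact le_self_pow₀ (by norm_num) (by omega)
  exact_mod_cast this

end Pool.Agent.MP_5f0aae_co.Un
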