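import Pool.Agent.MP_5f0aae_co.Defs

/-! Counting orbits of a group action that meet a finite set; sets of pairs of points. -/

namespace Pool.Agent.MP_5f0aae_co.Un

open Finset MulAction Equiv
open scoped Classical Pointwise

section Orbits

variable (Γ : Type) [Group Γ] {X Y : Type} [MulAction Γ X] [MulAction Γ Y]

/-- The orbit of an element. -/
def cl (x : X) : Quotient (orbitRel Γ X) := Quotient.mk _ x

/-- The number of orbits that meet a finite set. -/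
noncomputable def nb (F : Finset X) : ℕ := (F.image (cl Γ)).card

/-- Invariant sets. -/
def Inv (F : Finset X) : Prop := ∀ (g : Γ) x, x ∈ F → g • x ∈ F

variable {Γ} {F S P : Finset X}

lemma cl_eq {x y : X} : cl Γ x = cl Γ y ↔ ∃ g : Γ, g • y = x := Quotient.eq

lemma cl_smul (g : Γ) (x : X) : cl Γ (g • x) = cl Γ x := cl_eq.2 ⟨g, rfl⟩

lemma cl_out (ω : Quotient (orbitRel Γ X)) : cl Γ ω.out = ω := Quotient.out_eq ω

lemma Inv.out (h : Inv Γ F) {ω : Quotient (orbitRel Γ X)} (hω : ω ∈ F.image (cl Γ)) :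
    ω.out ∈ F := by
  obtain ⟨x, hx, e⟩ := mem_image.1 hω
  obtain ⟨g, e'⟩ := cl_eq.1 ((cl_out ω).trans e.symm)
  exact e' ▸ h g x hx

lemma nb_le_card : nb Γ F ≤ F.card := card_image_le

lemma nb_le_nb (h : ∀ x ∈ F, ∃ g : Γ, g • x ∈ S) : nb Γ F ≤ nb Γ S :=
  card_le_card fun _ hω => by
    obtain ⟨x, hx, rfl⟩ := mem_image.1 hω
    obtain ⟨g, hg⟩ := h x hx
    exact mem_image.2 ⟨_, hg, cl_smul g x⟩

lemma nb_mono (h : F ⊆ S) : nb Γ F ≤ nb Γ S := card_le_card (image_subset_image h)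

lemma nb_union_le [DecidableEq X] : nb Γ (F ∪ S) ≤ nb Γ F + nb Γ S := by
  rw [nb, image_union]; exact card_union_le _ _

lemma nb_union [DecidableEq X] (hF : Inv Γ F) (h : Disjoint F S) : nb Γ (F ∪ S) = nb Γ F + nb Γ S := by
  rw [nb, image_union]
  refine card_union_of_disjoint (disjoint_left.2 fun ω h1 h2 => ?_)
  obtain ⟨x, hx, rfl⟩ := mem_image.1 h1
  obtain ⟨y, hy, e⟩ := mem_image.1 h2
  obtain ⟨g, rfl⟩ := cl_eq.1 e
  exact disjoint_left.1 h (hF g x hx) hy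

lemma nb_le_one (h : ∀ x ∈ F, ∀ y ∈ F, ∃ g : Γ, g • y = x) : nb Γ F ≤ 1 :=
  card_le_one.2 fun _ h1 _ h2 => by
    obtain ⟨x, hx, rfl⟩ := mem_image.1 h1
    obtain ⟨y, hy, rfl⟩ := mem_image.1 h2
    exact cl_eq.2 (h x hx y hy)

lemma nb_eq_card (h : ∀ x ∈ F, ∀ y ∈ F, ∀ g : Γ, g • y = x → x = y) : nb Γ F = F.card :=
  card_image_of_injOn fun x hx y hy e => by
    obtain ⟨g, e⟩ := cl_eq.1 e
    exact h x hx y hy g e

lemma card_le_nb (c : ℕ) (h : ∀ x ∈ S, ∃ T : Finset X, T.card ≤ c ∧ ∀ g : Γ, g • x ∈ S → g • x ∈ T) :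
    S.card ≤ c * nb Γ S :=
  card_le_mul_card_image S c fun ω hω => by
    obtain ⟨x, hx, rfl⟩ := mem_image.1 hω
    obtain ⟨T, h1, h2⟩ := h x hx
    refine (card_le_card fun y hy => ?_).trans h1
    obtain ⟨g, rfl⟩ := cl_eq.1 (mem_filter.1 hy).2
    exact h2 g (mem_filter.1 hy).1

lemma reps (F : Finset X) : ∃ R ⊆ F, R.card = nb Γ F ∧
    (∀ x ∈ R, ∀ y ∈ R, ∀ g : Γ, g • y = x → x = y) ∧ ∀ x ∈ F, ∃ g : Γ, g • x ∈ R := by
  obtain ⟨R, h1, h2, h3⟩ := exists_subset_injOn_image_eq_of_surjOn (f := cl Γ) (F : Set X)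
    (F.image (cl Γ)) fun ω hω => by simpa using hω
  refine ⟨R, h1, by rw [nb, ← h3, card_image_of_injOn h2],
    fun x hx y hy g e => h2 hx hy (cl_eq.2 ⟨g, e⟩), fun x hx => ?_⟩
  obtain ⟨y, hy, e⟩ := mem_image.1 (h3 ▸ mem_image_of_mem (cl Γ) hx)
  obtain ⟨g, rfl⟩ := cl_eq.1 e
  exact ⟨g, hy⟩

lemma burnside [Fintype Γ] [DecidableEq X] (hF : Inv Γ F) :
    nb Γ F * Fintype.card Γ = ∑ g : Γ, (F.filter fun x => g • x = x).card := by
  have h1 : ∑ g : Γ, (F.filter fun x => g • x = x).card =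
      ∑ x ∈ F, Fintype.card (stabilizer Γ x) := by
    simp only [card_filter]
    rw [sum_comm]
    refine sum_congr rfl fun x _ => ?_
    rw [← card_filter, Fintype.card_subtype]
    rfl
  rw [h1, ← sum_fiberwise_of_maps_to (g := cl Γ) fun x hx => mem_image_of_mem _ hx, nb,
    ← smul_eq_mul, ← sum_const]
  refine sum_congr rfl fun ω hω => ?_
  obtain ⟨x, hx, rfl⟩ := mem_image.1 hω
  set T := F.filter fun y => cl Γ y = cl Γ x with hT
  have h0 : 0 < T.card := card_pos.2 ⟨x, mem_filter.2 ⟨hx, rfl⟩⟩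
  refine Nat.eq_of_mul_eq_mul_left h0 ?_
  rw [mul_sum, ← smul_eq_mul, ← sum_const]
  refine sum_congr rfl fun y hy => ?_
  let : Fintype (orbit Γ y) := (Set.finite_range _).fintype
  rw [← card_orbit_mul_card_stabilizer_eq_card_group Γ y, ← Set.toFinset_card]
  congr 2
  ext z
  rw [Set.mem_toFinset, hT, mem_filter, ← (mem_filter.1 hy).2, cl_eq]
  exact ⟨fun k => ⟨by obtain ⟨g, rfl⟩ := k; exact hF g y (mem_filter.1 hy).1, k⟩, fun k => k.2⟩

lemma cl_map (φ : X → Y) (hφ : ∀ (g : Γ) x, φ (g • x) = g • φ x) (x : X) :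
    cl Γ (φ (cl Γ x).out) = cl Γ (φ x) := by
  obtain ⟨g, e⟩ := cl_eq.1 (cl_out (cl Γ x))
  rw [← e, hφ, cl_smul]

lemma nb_surj {T : Finset Y} (φ : X → Y) (hφ : ∀ (g : Γ) x, φ (g • x) = g • φ x)
    (h : ∀ y ∈ T, ∃ x ∈ P, φ x = y) : nb Γ T ≤ nb Γ P :=
  card_le_card_of_surjOn (fun ω => cl Γ (φ ω.out)) fun _ hω => by
    obtain ⟨y, hy, rfl⟩ := mem_image.1 (mem_coe.1 hω)
    obtain ⟨x, hx, rfl⟩ := h y hy
    exact ⟨_, mem_coe.2 (mem_image_of_mem _ hx), cl_map φ hφ x⟩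

lemma nb_fiber [DecidableEq Y] {T : Finset Y} (φ : X → Y) (hφ : ∀ (g : Γ) x, φ (g • x) = g • φ x)
    (hP : Inv Γ P) (h : ∀ x ∈ P, φ x ∈ T) :
    nb Γ P = ∑ ω ∈ T.image (cl Γ), nb Γ (P.filter fun x => φ x = ω.out) := by
  rw [nb, card_eq_sum_card_fiberwise (f := fun ω => cl Γ (φ ω.out)) (t := T.image (cl Γ))]
  · refine sum_congr rfl fun ω _ => ?_
    rw [nb]
    congr 1
    ext η
    simp only [mem_filter, mem_image]
    constructor
    · rintro ⟨⟨x, hx, rfl⟩, e⟩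
      rw [cl_map φ hφ] at e
      obtain ⟨g, e'⟩ := cl_eq.1 ((cl_out ω).trans e.symm)
      exact ⟨g • x, ⟨hP g x hx, (hφ g x).trans e'⟩, cl_smul g x⟩
    · rintro ⟨x, ⟨hx, e⟩, rfl⟩
      exact ⟨⟨x, hx, rfl⟩, by rw [cl_map φ hφ, e, cl_out]⟩
  · intro η hη
    obtain ⟨x, hx, rfl⟩ := mem_image.1 (mem_coe.1 hη)
    exact mem_coe.2 (mem_image.2 ⟨_, h x hx, (cl_map φ hφ x).symm⟩)

lemma nb_le_mul [DecidableEq Y] {T : Finset Y} (φ : X → Y) (hφ : ∀ (g : Γ) x, φ (g • x) = g • φ x)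
    (hP : Inv Γ P) (h : ∀ x ∈ P, φ x ∈ T) (c : ℕ)
    (hc : ∀ x ∈ P, nb Γ (P.filter fun x' => φ x' = φ x) ≤ c) : nb Γ P ≤ nb Γ T * c := by
  rw [nb_fiber φ hφ hP h, nb, ← smul_eq_mul]
  refine sum_le_card_nsmul _ _ _ fun ω _ => ?_
  rcases (P.filter fun x => φ x = ω.out).eq_empty_or_nonempty with k | ⟨x, hx⟩
  · rw [k, nb, image_empty, card_empty]; exact Nat.zero_le _
  · exact (mem_filter.1 hx).2 ▸ hc x (mem_filter.1 hx).1

end Orbits

section Pairs

variable {V : Type}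

/-- Permutations of the points act on the pairs. -/
instance actPair : MulAction (Perm V) (Sym2 V) where
  smul σ e := e.map σ
  one_smul e := by
    show e.map id = e
    rw [Sym2.map_id, id]
  mul_smul σ τ e := by
    show e.map (σ ∘ τ) = (e.map τ).map σ
    rw [Sym2.map_map]

lemma smul_mk (σ : Perm V) (a b : V) : σ • s(a, b) = s(σ a, σ b) := rfl

lemma smul_mem (σ : Perm V) {e : Sym2 V} {v : V} : σ v ∈ σ • e ↔ v ∈ e := by
  induction e using Sym2.ind with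
  | _ a b => simp [smul_mk]

/-- The pairs of different points of `F`. -/
noncomputable def prs (F : Finset V) : Finset (Sym2 V) := F.sym2.filter fun e => ¬ e.IsDiag

/-- The degree of a point in a set of lines. -/
noncomputable def dg (A : Finset (Sym2 V)) (u : V) : ℕ := (A.filter fun e => u ∈ e).card

theorem mem_prs {F : Finset V} {e : Sym2 V} : e ∈ prs F ↔ (∀ a ∈ e, a ∈ F) ∧ ¬ e.IsDiag := by
  simp [prs, mem_sym2_iff]

theorem mk_mem_prs {F : Finset V} {a b : V} : s(a, b) ∈ prs F ↔ a ∈ F ∧ b ∈ F ∧ a ≠ b := by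
  simp [prs, and_assoc]

theorem prs_mono {F F' : Finset V} (h : F ⊆ F') : prs F ⊆ prs F' := fun _ he =>
  mem_prs.2 ⟨fun a ha => h ((mem_prs.1 he).1 a ha), (mem_prs.1 he).2⟩

theorem card_prs (F : Finset V) : (prs F).card = F.card.choose 2 := by
  rw [← Sym2.card_image_offDiag]
  congr 1
  ext e
  induction e using Sym2.ind with
  | _ a b =>
    rw [mk_mem_prs, mem_image]
    constructor
    · exact fun h => ⟨(a, b), mem_offDiag.2 h, rfl⟩
    · rintro ⟨⟨c, d⟩, h, e⟩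
      have h := mem_offDiag.1 h
      rcases Sym2.eq_iff.1 e with ⟨rfl, rfl⟩ | ⟨rfl, rfl⟩
      exacts [h, ⟨h.2.1, h.1, h.2.2.symm⟩]

theorem dg_prs {F : Finset V} {u : V} (hu : u ∈ F) : dg (prs F) u = F.card - 1 := by
  rw [← card_erase_of_mem hu, dg]
  symm
  refine card_bij (fun a _ => s(u, a)) (fun a ha => ?_) (fun a _ b _ h => ?_) fun e he => ?_
  · have := mem_erase.1 ha
    exact mem_filter.2 ⟨mk_mem_prs.2 ⟨hu, this.2, this.1.symm⟩, by simp⟩
  · exact Sym2.congr_right.1 h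
  · obtain ⟨h1, h2⟩ := mem_filter.1 he
    obtain ⟨a, rfl⟩ := Sym2.mem_iff_exists.1 h2
    have := mk_mem_prs.1 h1
    exact ⟨a, mem_erase.2 ⟨this.2.2.symm, this.2.1⟩, rfl⟩

theorem dg_mono {A B : Finset (Sym2 V)} (h : A ⊆ B) (u : V) : dg A u ≤ dg B u :=
  card_le_card (filter_subset_filter _ h)

theorem dg_zero {A : Finset (Sym2 V)} {u : V} : dg A u = 0 ↔ ∀ e ∈ A, u ∉ e := by
  rw [dg, card_eq_zero, filter_eq_empty_iff]

theorem dg_off {F : Finset V} {A : Finset (Sym2 V)} (h : A ⊆ prs F) {u : V} (hu : u ∉ F) :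
    dg A u = 0 := dg_zero.2 fun _ he k => hu ((mem_prs.1 (h he)).1 u k)

theorem dg_insert {A : Finset (Sym2 V)} {e : Sym2 V} (h : e ∉ A) (u : V) :
    dg (insert e A) u = dg A u + if u ∈ e then 1 else 0 := by
  rw [dg, filter_insert]
  split_ifs
  · exact card_insert_of_notMem fun k => h (mem_filter.1 k).1
  · rfl

theorem dg_sdiff {A B : Finset (Sym2 V)} (h : A ⊆ B) (u : V) : dg (B \ A) u + dg A u = dg B u := by
  rw [dg, dg, dg, ← card_union_of_disjoint (disjoint_filter_filter sdiff_disjoint), ← filter_union,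
    sdiff_union_of_subset h]

theorem dg_smul (σ : Perm V) (A : Finset (Sym2 V)) (u : V) : dg (σ • A) (σ u) = dg A u := by
  rw [dg, dg, ← card_smul_finset σ (A.filter _)]
  congr 1
  ext e
  obtain ⟨e, rfl⟩ := (MulAction.bijective σ).2 e
  simp only [mem_filter, smul_mem_smul_finset_iff, smul_mem]

theorem smul_prs {σ : Perm V} {F : Finset V} (h : ∀ a ∈ F, σ a ∈ F) {e : Sym2 V} (he : e ∈ prs F) :
    σ • e ∈ prs F := by
  induction e using Sym2.ind with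
  | _ a b =>
    have := mk_mem_prs.1 he
    exact mk_mem_prs.2 ⟨h a this.1, h b this.2.1, fun k => this.2.2 (σ.injective k)⟩

theorem smul_eq_of_sub {σ : Perm V} {A : Finset (Sym2 V)} (h : ∀ e ∈ A, σ • e ∈ A) : σ • A = A :=
  eq_of_subset_of_card_le (fun e he => by
    obtain ⟨e, k, rfl⟩ := mem_smul_finset.1 he
    exact h e k) (card_smul_finset σ A).ge

theorem smul_erase (σ : Perm V) (A : Finset (Sym2 V)) (e : Sym2 V) :
    σ • A.erase e = (σ • A).erase (σ • e) := by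
  rw [erase_eq, erase_eq, smul_finset_sdiff, smul_finset_singleton]

theorem smul_fix {σ : Perm V} {e : Sym2 V} (h : ∀ v ∈ e, σ v = v) : σ • e = e := by
  induction e using Sym2.ind with
  | _ a b => rw [smul_mk, h a (by simp), h b (by simp)]

variable [Fintype V]

/-- The sets of `q` lines. -/
noncomputable def Gr (V : Type) [Fintype V] (q : ℕ) : Finset (Finset (Sym2 V)) :=
  (prs univ).powersetCard q

/-- The sets of `q` lines without a point of degree `d`. -/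
noncomputable def Fr (V : Type) [Fintype V] (d q : ℕ) : Finset (Finset (Sym2 V)) :=
  (Gr V q).filter fun A => ∀ v, dg A v ≠ d

lemma mem_Gr {q : ℕ} {A : Finset (Sym2 V)} : A ∈ Gr V q ↔ A ⊆ prs univ ∧ A.card = q :=
  mem_powersetCard

lemma mem_Fr {d q : ℕ} {A : Finset (Sym2 V)} :
    A ∈ Fr V d q ↔ (A ⊆ prs univ ∧ A.card = q) ∧ ∀ v, dg A v ≠ d := by
  rw [Fr, mem_filter, mem_Gr]

lemma inv_Gr (q : ℕ) : Inv (Perm V) (Gr V q) := fun σ A h =>
  mem_Gr.2 ⟨fun e he => by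
    obtain ⟨e, k, rfl⟩ := mem_smul_finset.1 he
    exact smul_prs (fun _ _ => mem_univ _) ((mem_Gr.1 h).1 k),
    (card_smul_finset σ A).trans (mem_Gr.1 h).2⟩

lemma inv_Fr (d q : ℕ) : Inv (Perm V) (Fr V d q) := fun σ A h =>
  mem_filter.2 ⟨inv_Gr q σ A (mem_filter.1 h).1, fun v => by
    obtain ⟨v, rfl⟩ := σ.surjective v
    rw [dg_smul]
    exact (mem_filter.1 h).2 v⟩

lemma smul_prs_univ (σ : Perm V) : σ • prs (univ : Finset V) = prs univ :=
  smul_eq_of_sub fun _ he => smul_prs (fun _ _ => mem_univ _) he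

/-- The number of classes of graphs with `q` lines and no point of degree `d`. -/
noncomputable def uu (V : Type) [Fintype V] (d q : ℕ) : ℕ := nb (Perm V) (Fr V d q)

lemma uu_compl_le {d d' q q' : ℕ} (hd : d + d' + 1 = Fintype.card V)
    (hq : q + q' = (Fintype.card V).choose 2) : uu V d q ≤ uu V d' q' := by
  refine nb_surj (fun A => prs univ \ A)
    (fun σ A => by rw [smul_finset_sdiff, smul_prs_univ]) fun A hA => ?_
  obtain ⟨⟨h1, h2⟩, h3⟩ := mem_Fr.1 hA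
  refine ⟨prs univ \ A, mem_Fr.2 ⟨⟨sdiff_subset, ?_⟩, fun v k => h3 v ?_⟩,
    Finset.sdiff_sdiff_eq_self h1⟩
  · rw [card_sdiff_of_subset h1, card_prs, card_univ]; omega
  · have := dg_sdiff h1 v
    rw [dg_prs (mem_univ v), card_univ] at this
    omega

lemma uu_compl {d d' q q' : ℕ} (hd : d + d' + 1 = Fintype.card V)
    (hq : q + q' = (Fintype.card V).choose 2) : uu V d q = uu V d' q' :=
  (uu_compl_le hd hq).antisymm (uu_compl_le (by omega) (by omega))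

/-- The lines of a graph. -/
noncomputable def ed (G : SimpleGraph V) : Finset (Sym2 V) := univ.filter fun e => e ∈ G.edgeSet

lemma mem_ed {G : SimpleGraph V} {e : Sym2 V} : e ∈ ed G ↔ e ∈ G.edgeSet := by simp [ed]

lemma dg_ed (G : SimpleGraph V) (v : V) : (G.neighborSet v).ncard = dg (ed G) v := by
  rw [dg, ← Set.ncard_coe_finset]
  refine Set.ncard_congr (fun a _ => s(v, a)) (fun a ha => ?_)
    (fun a b _ _ k => Sym2.congr_right.1 k) fun e he => ?_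
  · exact mem_coe.2 (mem_filter.2 ⟨mem_ed.2 ha, by simp⟩)
  · obtain ⟨h1, h2⟩ := mem_filter.1 (mem_coe.1 he)
    obtain ⟨a, rfl⟩ := Sym2.mem_iff_exists.1 h2
    exact ⟨a, mem_ed.1 h1, rfl⟩

lemma card_ed (G : SimpleGraph V) : G.edgeSet.ncard = (ed G).card := by
  rw [← Set.ncard_coe_finset]
  congr 1
  ext e
  exact mem_ed.symm

lemma iso_iff {G H : SimpleGraph V} :
    cl (Perm V) (ed G) = cl (Perm V) (ed H) ↔ Nonempty (G ≃g H) := by
  rw [eq_comm, cl_eq]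
  constructor
  · rintro ⟨σ, e⟩
    refine ⟨⟨σ, fun {a b} => ?_⟩⟩
    rw [← SimpleGraph.mem_edgeSet, ← SimpleGraph.mem_edgeSet, ← mem_ed, ← mem_ed, ← e, ← smul_mk,
      smul_mem_smul_finset_iff]
  · rintro ⟨φ⟩
    refine ⟨φ.toEquiv, ?_⟩
    ext e
    obtain ⟨e, rfl⟩ := (MulAction.bijective (φ.toEquiv : Perm V)).2 e
    rw [smul_mem_smul_finset_iff, mem_ed, mem_ed]
    induction e using Sym2.ind with
    | _ a b => exact φ.map_rel_iff.symm

theorem quot_eq (q : ℕ) : Nat.card (Quot fun G H : {G : SimpleGraph V //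
    (∀ v, (G.neighborSet v).ncard ≠ 2) ∧ G.edgeSet.ncard = q} => Nonempty (G.1 ≃g H.1)) =
    uu V 2 q := by
  rw [uu, nb, ← Nat.card_eq_finsetCard]
  refine Nat.card_eq_of_bijective (Quot.lift (fun G => ⟨cl _ (ed G.1), mem_image_of_mem _
    (mem_Fr.2 ⟨⟨fun e he => mem_prs.2 ⟨fun _ _ => mem_univ _,
      G.1.not_isDiag_of_mem_edgeSet (mem_ed.1 he)⟩, card_ed G.1 ▸ G.2.2⟩,
      fun v => dg_ed G.1 v ▸ G.2.1 v⟩)⟩) fun G H h => Subtype.ext (iso_iff.2 h)) ⟨?_, ?_⟩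
  · intro a b
    induction a using Quot.ind
    induction b using Quot.ind
    exact fun e => Quot.sound (iso_iff.1 (congrArg Subtype.val e))
  · rintro ⟨ω, hω⟩
    obtain ⟨A, hA, rfl⟩ := mem_image.1 hω
    obtain ⟨⟨h1, h2⟩, h3⟩ := mem_Fr.1 hA
    have e : ed (SimpleGraph.fromEdgeSet (A : Set (Sym2 V))) = A := by
      ext e
      rw [mem_ed, SimpleGraph.edgeSet_fromEdgeSet]
      exact ⟨fun k => k.1, fun k => ⟨k, (mem_prs.1 (h1 k)).2⟩⟩
    refine ⟨Quot.mk _ ⟨SimpleGraph.fromEdgeSet A, fun v => ?_, ?_⟩,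
      Subtype.ext (congrArg (cl (Perm V)) e)⟩
    · rw [dg_ed, e]; exact h3 v
    · rw [card_ed, e, h2]

theorem hcount_eq (p q : ℕ) : hcount p q = uu (Fin p) 2 q := quot_eq q

end Pairs

end Pool.Agent.MP_5f0aae_co.Un
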