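import Pool.Agent.MP_5f0aae_co.Un.Top

open Pool.Agent.MP_5f0aae_co

/-- For all large `p` the numbers of homeomorphically irreducible graphs with `p` points increase
with the number of lines up to half the number of pairs of points, rounded up, and decrease from
there on, strictly except for the first two steps and the last step. -/
theorem Pool.Agent.Results.MP_5f0aae_co.Unimodal.result :
    ∃ P : ℕ, ∀ p : ℕ, P ≤ p → ∀ q : ℕ,
      (2 * q < p.choose 2 →
        hcount p q ≤ hcount p (q + 1) ∧ (2 ≤ q → hcount p q < hcount p (q + 1))) ∧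
      (p.choose 2 ≤ 2 * q →
        hcount p (q + 1) ≤ hcount p q ∧ (q + 2 ≤ p.choose 2 → hcount p (q + 1) < hcount p q)) := by
  refine ⟨(2 ^ 155) ^ 8, fun p hp q => ?_⟩
  simp only [Un.hcount_eq]
  exact Un.shape (Fintype.card_fin p) hp q
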