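import Pool.Agent.MP_5f0aae_co.Un.Mid

/-! The dense range, the tie in the middle, and the assembly. -/

namespace Pool.Agent.MP_5f0aae_co.Un

open Finset MulAction Equiv Real
open scoped Classical Pointwise

variable {V : Type} [Fintype V]

lemma card_le_burn {F : Finset (Finset (Sym2 V))} (hF : Inv (Perm V) F) :
    F.card ≤ nb (Perm V) F * Fintype.card (Perm V) := by
  rw [burnside hF]
  refine le_trans (le_of_eq ?_) (single_le_sum (f := fun g : Perm V =>
    (F.filter fun x => g • x = x).card) (fun _ _ => Nat.zero_le _) (mem_univ 1))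
  rw [filter_true_of_mem fun x _ => one_smul _ x]

lemma sum_fx (W : Finset V) {q n N p : ℕ} (hp : Fintype.card V = p) (hn : W.card = n)
    (hN : n.choose 2 = N) (n3 : 3 ≤ n) (q0 : 0 < q) (hq : 2 * q ≤ N) {s : ℝ}
    (hs : s ≤ q / N * (n - 3)) (hw : 10 * (p : ℝ) ^ 6 * exp (-(s / 8)) ≤ 1) :
    (∑ σ ∈ (univ : Finset (Perm V)).filter fun σ => ∀ a, a ∉ W → σ a = a,
      (Fx σ W q).card : ℝ) ≤ N.choose q * (1 + 2 * (p : ℝ) ^ 4 * exp (-(s / 8))) := by
  have np : n ≤ p := by rw [← hn, ← hp]; exact card_le_univ _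
  have p1 : (1 : ℝ) ≤ p := by exact_mod_cast (by omega : 1 ≤ p)
  have w0 := exp_pos (-(s / 8))
  have h1 := err_le W hn hN n3 q0 hq (w := exp (-(s / 8))) (exp_le_exp.2 (by linarith)) (by
    rw [hp]
    have : (p : ℝ) ^ 2 ≤ (p : ℝ) ^ 6 := pow_le_pow_right₀ p1 (by norm_num)
    nlinarith)
  have h2 : ((Fx (1 : Perm V) W q).card : ℝ) ≤ N.choose q := by
    have := card_filter_le ((prs W).powersetCard q) fun A => (1 : Perm V) • A = A
    rw [card_powersetCard, card_prs, hn, hN] at this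
    exact_mod_cast this
  have h3 : (N : ℝ) + 1 ≤ (p : ℝ) ^ 2 := by
    have := two_choose n
    have := Nat.pow_le_pow_left np 2
    exact_mod_cast (by omega : N + 1 ≤ p ^ 2)
  rw [filter_erase, hp] at h1
  rw [← add_sum_erase _ _ (a := 1) (mem_filter.2 ⟨mem_univ _, fun _ _ => rfl⟩)]
  have h4 : (N.choose q : ℝ) * ((N + 1) * (2 * ((p : ℝ) ^ 2 * exp (-(s / 8))))) ≤
      N.choose q * ((p : ℝ) ^ 2 * (2 * ((p : ℝ) ^ 2 * exp (-(s / 8))))) := by gcongr
  linarith

lemma min_ge (W : Finset V) {j n N p : ℕ} (hp : Fintype.card V = p) (hn : W.card = n)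
    (hN : n.choose 2 = N) (n3 : 3 ≤ n) (hj : j ≤ N) {s : ℝ} (s0 : 0 ≤ s)
    (hs : s ≤ j / N * (n - 3)) :
    (N.choose j : ℝ) * (1 - 2 * (p : ℝ) ^ 4 * exp (-(s / 8))) ≤ (Mn W j).card := by
  have np : n ≤ p := by rw [← hn, ← hp]; exact card_le_univ _
  have p1 : (1 : ℝ) ≤ p := by exact_mod_cast (by omega : 1 ≤ p)
  refine le_trans (mul_le_mul_of_nonneg_left (sub_le_sub_left ?_ _) (by positivity))
    (min_le W hn hN n3 hj)
  refine mul_le_mul ?_ ?_ (by positivity) (by positivity)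
  · have a1 : (n : ℝ) ^ 3 ≤ (p : ℝ) ^ 3 := by exact_mod_cast Nat.pow_le_pow_left np 3
    have a2 : (p : ℝ) ^ 3 ≤ (p : ℝ) ^ 4 := pow_le_pow_right₀ p1 (by norm_num)
    have a3 : 0 ≤ (p : ℝ) ^ 4 := by positivity
    linarith
  · rw [← exp_nat_mul, Nat.cast_sub n3]
    refine exp_le_exp.2 ?_
    push_cast
    linarith

lemma dens {p j N : ℕ} (hN : p.choose 2 = N) (p6 : 6 ≤ p) (h : p ^ 3 ≤ j ^ 2) :
    √p ≤ (j : ℝ) / N * (p - 3) := by
  have p0 : (6 : ℝ) ≤ p := by exact_mod_cast p6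
  have a1 : 2 * (N : ℝ) ≤ (p : ℝ) ^ 2 := by
    have := two_choose p
    exact_mod_cast (by omega : 2 * N ≤ p ^ 2)
  have N0 : (0 : ℝ) < N := by exact_mod_cast hN ▸ Nat.choose_pos (by omega)
  have a2 : √p * p ≤ j := le_of_pow_le_pow_left₀ two_ne_zero (by positivity) (by
    rw [mul_pow, sq_sqrt (by positivity), ← pow_succ']
    exact_mod_cast h)
  have s0 := sqrt_nonneg (p : ℝ)
  rw [div_mul_eq_mul_div, le_div_iff₀ N0]
  calc √p * N ≤ √p * (p * (p - 3)) := by gcongr; nlinarith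
    _ = √p * p * (p - 3) := by ring
    _ ≤ _ := by gcongr; linarith

theorem rangeC {d q p : ℕ} (hp : Fintype.card V = p) (hd : d = 2 ∨ d + 3 = p) (p6 : 6 ≤ p)
    (hw : 10 * (p : ℝ) ^ 6 * exp (-(√p / 8)) ≤ 1) (h1 : p ^ 3 ≤ q ^ 2)
    (h2 : 2 * q + 2 ≤ p.choose 2) : uu V d q < uu V d (q + 1) := by
  set N := p.choose 2 with hN
  set ε := 2 * (p : ℝ) ^ 4 * exp (-(√p / 8)) with hε
  have q0 : 0 < q := Nat.pos_of_ne_zero fun k => by
    have : 0 < p ^ 3 := by positivity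
    rw [k] at h1
    omega
  have lo : ∀ j, q ≤ j → j ≤ N →
      (N.choose j : ℝ) * (1 - ε) ≤ uu V 2 j * Fintype.card (Perm V) := fun j k1 k2 => by
    refine (min_ge univ hp hp rfl (by omega) k2 (sqrt_nonneg _)
      (dens rfl p6 (h1.trans (Nat.pow_le_pow_left k1 2)))).trans ?_
    have : Mn univ j ⊆ Fr V 2 j := fun A hA => mem_filter.2 ⟨(mem_Mn.1 hA).1, fun v => by
      have := (mem_Mn.1 hA).2 v (mem_univ _)
      omega⟩
    exact_mod_cast (card_le_card this).trans (card_le_burn (inv_Fr 2 j))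
  have a1 : (N.choose (q + 1) : ℝ) * (1 - ε) ≤ uu V d (q + 1) * Fintype.card (Perm V) := by
    rcases hd with rfl | hd
    · exact lo _ (by omega) (by omega)
    · rw [uu_compl (d' := 2) (q' := N - (q + 1)) (by omega) (by rw [hp]; omega),
        ← Nat.choose_symm (by omega)]
      exact lo _ (by omega) (by omega)
  have a2 : (uu V d q : ℝ) * Fintype.card (Perm V) ≤ N.choose q * (1 + ε) := by
    refine le_trans ?_ (sum_fx univ hp hp rfl (by omega) q0 (by omega) (dens rfl p6 h1) hw)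
    rw [filter_true_of_mem fun σ _ a ha => absurd (mem_univ a) ha]
    have : uu V d q * Fintype.card (Perm V) ≤ ∑ σ : Perm V, (Fx σ univ q).card :=
      (burnside (inv_Fr d q)).le.trans
        (sum_le_sum fun σ _ => card_le_card (filter_subset_filter _ (filter_subset _ _)))
    exact_mod_cast this
  have a3 : (N.choose (q + 1) : ℝ) * (q + 1) = N.choose q * (N - q) := by
    rw [← Nat.cast_sub (by omega)]
    exact_mod_cast Nat.choose_succ_right_eq N q
  have a4 : (0 : ℝ) < N.choose q := by exact_mod_cast Nat.choose_pos (by omega)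
  have a5 : (2 * q + 3 : ℝ) ≤ (p : ℝ) ^ 2 := by
    have := two_choose p
    exact_mod_cast (by omega : 2 * q + 3 ≤ p ^ 2)
  have a6 : 2 * (q : ℝ) + 2 ≤ N := by exact_mod_cast h2
  have e0 : 0 < ε := by positivity
  have e1 : ε * (2 * q + 3) ≤ 1 / 5 := by
    refine (mul_le_mul_of_nonneg_left a5 e0.le).trans ?_
    rw [hε]
    linarith
  have e2 : ε ≤ 1 := by nlinarith [Nat.cast_nonneg (α := ℝ) q]
  have a7 : (1 + ε) * (q + 1) < (N - q) * (1 - ε) :=
    lt_of_lt_of_le (by linarith) (mul_le_mul_of_nonneg_right (by linarith : (q : ℝ) + 2 ≤ N - q)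
      (by linarith))
  have a8 : (N.choose q : ℝ) * (1 + ε) < N.choose (q + 1) * (1 - ε) := by
    refine lt_of_mul_lt_mul_right ?_ (by positivity : (0 : ℝ) ≤ q + 1)
    rw [mul_right_comm _ (1 - ε), a3, mul_assoc, mul_assoc]
    exact mul_lt_mul_of_pos_left a7 a4
  exact_mod_cast lt_of_mul_lt_mul_right (a2.trans_lt (a8.trans_le a1)) (by positivity)

/-- The pairs at a point. -/
noncomputable def star (v : V) : Finset (Sym2 V) := (prs univ).filter fun e => v ∈ e

lemma card_star (v : V) : (star v).card = Fintype.card V - 1 := dg_prs (mem_univ v)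

/-- The sets of `q` lines with a point of degree `d`. -/
noncomputable def Br (V : Type) [Fintype V] (d q : ℕ) : Finset (Finset (Sym2 V)) :=
  (Gr V q).filter fun A => ¬ ∀ v, dg A v ≠ d

lemma uu_add (d q : ℕ) : uu V d q + nb (Perm V) (Br V d q) = nb (Perm V) (Gr V q) := by
  have : Gr V q = Fr V d q ∪ Br V d q := (filter_union_filter_not_eq _ _).symm
  rw [this]
  exact (nb_union (inv_Fr d q) (disjoint_filter_filter_not _ _ _)).symm

lemma inv_Br (d q : ℕ) : Inv (Perm V) (Br V d q) := fun σ A h =>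
  mem_filter.2 ⟨inv_Gr q σ A (mem_filter.1 h).1, fun k =>
    (mem_filter.1 h).2 fun v => dg_smul σ A v ▸ k (σ v)⟩

lemma root_up (d j : ℕ) : nb (Perm V) (Br V d (d + j)) * Fintype.card (Perm V) ≤
    ∑ v : V, (Fintype.card V - 1).choose d * ∑ σ ∈ (univ : Finset (Perm V)).filter
      fun σ => ∀ a, a ∉ univ.erase v → σ a = a, (Fx σ (univ.erase v) j).card := by
  set R := (Gr V (d + j) ×ˢ (univ : Finset V)).filter fun x => dg x.1 x.2 = d with hR
  have mR : ∀ x, x ∈ R ↔ x.1 ∈ Gr V (d + j) ∧ dg x.1 x.2 = d := fun x => by simp [hR]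
  have iR : Inv (Perm V) R := fun σ x hx =>
    (mR _).2 ⟨inv_Gr _ σ _ ((mR x).1 hx).1, (dg_smul σ x.1 x.2).trans ((mR x).1 hx).2⟩
  have h1 : nb (Perm V) (Br V d (d + j)) ≤ nb (Perm V) R :=
    nb_surj Prod.fst (fun _ _ => rfl) fun A hA => by
      obtain ⟨k1, k2⟩ := mem_filter.1 hA
      push Not at k2
      obtain ⟨v, k2⟩ := k2
      exact ⟨(A, v), (mR _).2 ⟨k1, k2⟩, rfl⟩
  refine (Nat.mul_le_mul_right _ h1).trans ((burnside iR).le.trans ?_)
  simp only [mul_sum, sum_filter]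
  rw [sum_comm]
  refine sum_le_sum fun σ _ => ?_
  rw [card_eq_sum_card_fiberwise (f := Prod.snd) (t := univ) fun _ _ => mem_coe.2 (mem_univ _)]
  refine sum_le_sum fun v _ => ?_
  rcases (((R.filter fun x => σ • x = x).filter fun x => x.2 = v)).eq_empty_or_nonempty with
    k | ⟨x, hx⟩
  · rw [k, card_empty]
    exact Nat.zero_le _
  have hv : σ v = v := by
    obtain ⟨k1, rfl⟩ := mem_filter.1 hx
    exact congrArg Prod.snd (mem_filter.1 k1).2
  rw [if_pos fun a ha => by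
    obtain rfl : a = v := by simpa using ha
    exact hv, ← card_star v, ← card_powersetCard, ← card_product]
  refine card_le_card_of_injOn (fun x => (x.1.filter fun e => v ∈ e, x.1.filter fun e => ¬ v ∈ e))
    (fun y hy => ?_) fun y hy z hz e => ?_
  · obtain ⟨k1, k2⟩ := mem_filter.1 (mem_coe.1 hy)
    obtain ⟨k1, k3⟩ := mem_filter.1 k1
    obtain ⟨k1, k4⟩ := (mR y).1 k1
    obtain ⟨k0, k1⟩ := mem_Gr.1 k1
    have k3 : σ • y.1 = y.1 := congrArg Prod.fst k3
    have k5 := card_filter_add_card_filter_not (s := y.1) fun e => v ∈ e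
    rw [k2, dg] at k4
    refine mem_coe.2 (mem_product.2 ⟨mem_powersetCard.2 ⟨filter_subset_filter _ k0, k4⟩,
      mem_filter.2 ⟨mem_powersetCard.2 ⟨fun e he => ?_, by dsimp only; omega⟩,
        smul_eq_of_sub fun e he => ?_⟩⟩)
    · obtain ⟨i1, i2⟩ := mem_filter.1 he
      exact mem_prs.2 ⟨fun a ha => mem_erase.2 ⟨fun k => i2 (k ▸ ha), mem_univ _⟩,
        (mem_prs.1 (k0 i1)).2⟩
    · obtain ⟨i1, i2⟩ := mem_filter.1 he
      exact mem_filter.2 ⟨k3 ▸ smul_mem_smul_finset i1, fun i => i2 ((smul_mem σ).1 (hv.symm ▸ i))⟩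
  · refine Prod.ext ?_
      ((mem_filter.1 (mem_coe.1 hy)).2.trans (mem_filter.1 (mem_coe.1 hz)).2.symm)
    have e1 := congrArg Prod.fst e
    have e2 := congrArg Prod.snd e
    dsimp only at e1 e2
    rw [← filter_union_filter_not_eq (fun e => v ∈ e) y.1, e1, e2, filter_union_filter_not_eq]

lemma root_low (j : ℕ) : ∑ v : V, (Fintype.card V - 1).choose 2 * (Mn (univ.erase v) j).card ≤
    nb (Perm V) (Br V 2 (2 + j)) * Fintype.card (Perm V) := by
  refine le_trans ?_ (card_le_burn (inv_Br _ _))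
  set U := fun v : V => ((star v).powersetCard 2 ×ˢ Mn (univ.erase v) j).image
    fun y => y.1 ∪ y.2 with hU
  have key : ∀ v : V, ∀ y ∈ (star v).powersetCard 2 ×ˢ Mn (univ.erase v) j,
      (y.1 ∪ y.2).filter (fun e => v ∈ e) = y.1 ∧ (y.1 ∪ y.2).filter (fun e => ¬ v ∈ e) = y.2 :=
    fun v y hy => by
      have k1 : ∀ e ∈ y.1, v ∈ e := fun e he =>
        (mem_filter.1 ((mem_powersetCard.1 (mem_product.1 hy).1).1 he)).2
      have k2 : ∀ e ∈ y.2, ¬ v ∈ e := fun e he k => by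
        simpa using (mem_prs.1
          ((mem_powersetCard.1 (mem_Mn.1 (mem_product.1 hy).2).1).1 he)).1 v k
      constructor <;> ext e <;> rw [mem_filter, mem_union]
      · exact ⟨fun h => h.1.resolve_right fun k => k2 e k h.2, fun h => ⟨Or.inl h, k1 e h⟩⟩
      · exact ⟨fun h => h.1.resolve_left fun k => h.2 (k1 e k), fun h => ⟨Or.inr h, k2 e h⟩⟩
  have u1 : ∀ v : V, ∀ A ∈ U v, A ∈ Gr V (2 + j) ∧ dg A v = 2 ∧ ∀ u, u ≠ v → 3 ≤ dg A u :=
    fun v A hA => by
      obtain ⟨y, hy, rfl⟩ := mem_image.1 hA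
      obtain ⟨k1, k2⟩ := key v y hy
      obtain ⟨k3, k4⟩ := mem_powersetCard.1 (mem_product.1 hy).1
      obtain ⟨k5, k6⟩ := mem_Mn.1 (mem_product.1 hy).2
      obtain ⟨k5, k7⟩ := mem_powersetCard.1 k5
      refine ⟨mem_Gr.2 ⟨union_subset (k3.trans (filter_subset _ _))
        (k5.trans (prs_mono (subset_univ _))), ?_⟩, by rw [dg, k1, k4], fun u hu =>
        (k6 u (mem_erase.2 ⟨hu, mem_univ _⟩)).trans (dg_mono subset_union_right u)⟩
      rw [← card_filter_add_card_filter_not (fun e => v ∈ e), k1, k2, k4, k7]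
  refine le_trans (le_of_eq ?_) (card_le_card (s := univ.biUnion U) fun A hA => ?_)
  · rw [card_biUnion fun v _ u _ k => disjoint_left.2 fun A h1 h2 => by
      have := (u1 v A h1).2.1
      have := (u1 u A h2).2.2 v k
      omega]
    refine sum_congr rfl fun v _ => ?_
    rw [card_image_of_injOn, card_product, card_powersetCard, card_star]
    intro y hy z hz e
    have e : y.1 ∪ y.2 = z.1 ∪ z.2 := e
    exact Prod.ext (by rw [← (key v y hy).1, e, (key v z hz).1])
      (by rw [← (key v y hy).2, e, (key v z hz).2])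
  · obtain ⟨v, -, hv⟩ := mem_biUnion.1 hA
    exact mem_filter.2 ⟨(u1 v A hv).1, fun k => k v (u1 v A hv).2.1⟩

theorem rangeD {q p : ℕ} (hp : Fintype.card V = p) (p6 : 100 ≤ p)
    (hw : 10 * (p : ℝ) ^ 6 * exp (-(√p / 8)) ≤ 1) (h2 : 2 * q + 1 = p.choose 2) :
    uu V 2 q < uu V 2 (q + 1) := by
  obtain ⟨n, rfl⟩ : ∃ n, p = n + 1 := ⟨p - 1, by omega⟩
  set N := n.choose 2 with hN
  have n1 := two_choose n
  have n2 : 99 * n ≤ n ^ 2 := by nlinarith
  rw [choose_succ_two] at h2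
  obtain ⟨j, hj⟩ : ∃ j, q = n - 2 + j := ⟨q - (n - 2), by omega⟩
  obtain ⟨i, hi⟩ : ∃ i, q = 2 + i := ⟨q - 2, by omega⟩
  rw [uu_compl (d := 2) (q := q + 1) (d' := n - 2) (q' := q) (by omega)
    (by rw [hp, choose_succ_two]; omega)]
  have b1 := uu_add (V := V) 2 q
  have b2 := uu_add (V := V) (n - 2) q
  suffices h : nb (Perm V) (Br V (n - 2) q) < nb (Perm V) (Br V 2 q) by omega
  set ε := 2 * ((n + 1 : ℕ) : ℝ) ^ 4 * exp (-(√(n + 1 : ℕ) / 8)) with hε
  have cW : ∀ v : V, (univ.erase v).card = n := fun v => by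
    rw [card_erase_of_mem (mem_univ _), card_univ, hp, Nat.add_sub_cancel]
  have n0 : (99 : ℝ) ≤ n := by exact_mod_cast (by omega : 99 ≤ n)
  have N0 : (0 : ℝ) < N := by exact_mod_cast (by omega : 0 < N)
  have ds : ∀ k : ℕ, N ≤ 4 * k → √(n + 1 : ℕ) ≤ (k : ℝ) / N * (n - 3) := fun k hk => by
    have k1 : 1 / 4 ≤ (k : ℝ) / N := by
      rw [div_le_div_iff₀ (by norm_num) N0]
      exact_mod_cast (by omega : 1 * N ≤ k * 4)
    refine le_trans (sqrt_le_iff.2 ⟨by linarith, ?_⟩)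
      (mul_le_mul_of_nonneg_right k1 (by linarith))
    push_cast
    nlinarith
  have a1 : (nb (Perm V) (Br V (n - 2) q) : ℝ) * Fintype.card (Perm V) ≤
      ∑ _v : V, (N : ℝ) * (N.choose j * (1 + ε)) := by
    have := root_up (V := V) (n - 2) j
    rw [← hj, hp, Nat.add_sub_cancel, Nat.choose_symm (by omega), ← hN] at this
    refine le_trans (by exact_mod_cast this) (sum_le_sum (f := fun v : V => (N : ℝ) *
      ∑ σ ∈ (univ : Finset (Perm V)).filter fun σ => ∀ a, a ∉ univ.erase v → σ a = a,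
        ((Fx σ (univ.erase v) j).card : ℝ)) fun v _ => ?_)
    exact mul_le_mul_of_nonneg_left (sum_fx _ hp (cW v) rfl (by omega) (by omega) (by omega)
      (ds j (by omega)) hw) N0.le
  have a2 : ∑ _v : V, (N : ℝ) * (N.choose i * (1 - ε)) ≤
      (nb (Perm V) (Br V 2 q) : ℝ) * Fintype.card (Perm V) := by
    have := root_low (V := V) i
    rw [← hi, hp, Nat.add_sub_cancel, ← hN] at this
    refine le_trans (sum_le_sum (g := fun v : V => (N : ℝ) * ((Mn (univ.erase v) i).card : ℝ))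
      fun v _ => ?_) (by exact_mod_cast this)
    exact mul_le_mul_of_nonneg_left (min_ge _ hp (cW v) rfl (by omega) (by omega) (sqrt_nonneg _)
      (ds i (by omega))) N0.le
  have a3 : (N.choose j : ℝ) * (i + 1) = N.choose i * (j + 1) := by
    have := Nat.choose_succ_right_eq N i
    rw [← Nat.choose_symm_of_eq_add (by omega : N = j + (i + 1)), (by omega : N - i = j + 1)] at this
    exact_mod_cast this
  have a4 : (0 : ℝ) < N.choose i := by exact_mod_cast Nat.choose_pos (by omega)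
  have a5 : (i + j + 2 : ℝ) ≤ ((n + 1 : ℕ) : ℝ) ^ 2 := by
    have : n ^ 2 ≤ (n + 1) ^ 2 := Nat.pow_le_pow_left (by omega) 2
    exact_mod_cast (by omega : i + j + 2 ≤ (n + 1) ^ 2)
  have a6 : (j : ℝ) + 1 ≤ i := by exact_mod_cast (by omega : j + 1 ≤ i)
  have e0 : 0 < ε := by positivity
  have e1 : ε * (i + j + 2) ≤ 1 / 5 := by
    refine (mul_le_mul_of_nonneg_left a5 e0.le).trans ?_
    rw [hε]
    linarith
  have a8 : (N.choose j : ℝ) * (1 + ε) < N.choose i * (1 - ε) := by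
    refine lt_of_mul_lt_mul_right ?_ (by positivity : (0 : ℝ) ≤ i + 1)
    rw [mul_right_comm _ (1 + ε), a3, mul_assoc, mul_assoc]
    exact mul_lt_mul_of_pos_left (by linarith) a4
  have : Nonempty V := Fintype.card_pos_iff.1 (by omega)
  exact_mod_cast lt_of_mul_lt_mul_right (a1.trans_lt (lt_of_lt_of_le (sum_lt_sum_of_nonempty
    univ_nonempty fun _ _ => mul_lt_mul_of_pos_left a8 N0) a2)) (by positivity)

lemma small_exp {p : ℕ} (big : (2 ^ 155) ^ 8 ≤ p) : 10 * (p : ℝ) ^ 6 * exp (-(√p / 8)) ≤ 1 := by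
  set s := √(p : ℝ) with hs
  have s2 : s ^ 2 = p := sq_sqrt (by positivity)
  have s1 : (2 : ℝ) ^ 100 ≤ s := le_sqrt_of_sq_le (le_trans (by norm_num) (by exact_mod_cast big :
    (((2 : ℝ) ^ 155) ^ 8) ≤ p))
  have s0 : 0 < s := lt_of_lt_of_le (by positivity) s1
  have h := pow_div_factorial_le_exp (s / 8) (by positivity) 13
  rw [exp_neg, ← div_eq_mul_inv, div_le_one (exp_pos _), ← s2]
  refine le_trans ?_ h
  rw [le_div_iff₀ (by positivity), div_pow, le_div_iff₀ (by positivity)]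
  calc _ = s ^ 12 * (10 * (Nat.factorial 13 : ℝ) * 8 ^ 13) := by ring
    _ ≤ s ^ 12 * s := by
      gcongr
      exact le_trans (by norm_num [Nat.factorial]) s1
    _ = _ := by ring

theorem step {d q p : ℕ} (hp : Fintype.card V = p) (hd : d = 2 ∨ d + 3 = p)
    (big : (2 ^ 155) ^ 8 ≤ p) (h : 2 * q + 2 ≤ p.choose 2) :
    uu V d q ≤ uu V d (q + 1) ∧ (1 ≤ q → (d = 2 → 2 ≤ q) → uu V d q < uu V d (q + 1)) := by
  have p1 : 2000 ≤ p := le_trans (by norm_num) big
  rcases le_or_gt (2 * (q + 1)) p with h1 | h1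
  · obtain ⟨a, b⟩ := rangeA (V := V) (d := d) (q := q) (by omega) (by omega)
    exact ⟨a, fun k1 k2 => b k1 (by omega)⟩
  have : uu V d q < uu V d (q + 1) := by
    rcases le_total (q ^ 2) (p ^ 3) with h2 | h2
    · exact rangeB hp hd big h1 h2
    · exact rangeC hp hd (by omega) (small_exp big) h2 h
  exact ⟨this.le, fun _ _ => this⟩

theorem shape {p : ℕ} (hp : Fintype.card V = p) (big : (2 ^ 155) ^ 8 ≤ p) (q : ℕ) :
    (2 * q < p.choose 2 → uu V 2 q ≤ uu V 2 (q + 1) ∧ (2 ≤ q → uu V 2 q < uu V 2 (q + 1))) ∧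
    (p.choose 2 ≤ 2 * q → uu V 2 (q + 1) ≤ uu V 2 q ∧
      (q + 2 ≤ p.choose 2 → uu V 2 (q + 1) < uu V 2 q)) := by
  have p1 : 2000 ≤ p := le_trans (by norm_num) big
  refine ⟨fun h => ?_, fun h => ?_⟩
  · rcases Nat.lt_or_ge (2 * q + 1) (p.choose 2) with h1 | h1
    · obtain ⟨a, b⟩ := step (q := q) hp (Or.inl rfl) big h1
      exact ⟨a, fun k => b (by omega) fun _ => k⟩
    · have := rangeD (q := q) hp (by omega) (small_exp big) (by omega)
      exact ⟨this.le, fun _ => this⟩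
  · rcases Nat.lt_or_ge q (p.choose 2) with h1 | h1
    · obtain ⟨m, hm⟩ : ∃ m, p.choose 2 = q + m + 1 := ⟨p.choose 2 - q - 1, by omega⟩
      rw [uu_compl (d := 2) (q := q + 1) (d' := p - 3) (q' := m) (by omega) (by rw [hp]; omega),
        uu_compl (d := 2) (q := q) (d' := p - 3) (q' := m + 1) (by omega) (by rw [hp]; omega)]
      obtain ⟨a, b⟩ := step (d := p - 3) (q := m) hp (Or.inr (by omega)) big (by omega)
      exact ⟨a, fun k => b (by omega) (by omega)⟩
    · refine ⟨nb_mono fun A hA => ?_, fun k => by omega⟩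
      have := card_le_card (mem_Fr.1 hA).1.1
      rw [card_prs, card_univ, hp, (mem_Fr.1 hA).1.2] at this
      omega

end Pool.Agent.MP_5f0aae_co.Un
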